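import Pool.Agent.Run7.h863.Met.Avg

/-!
# Annihilating meteors (helper146), piece D1B
-/

set_option autoImplicit false

open MeasureTheory Filter Topology ENNReal

namespace Pool.Agent.Run7.h863.Met

open Run7.h146.Met

theorem iso_res {ε R L : ℝ} (F : Finset (X 1)) {z : X 1} (hz : z.1 ∈ Iv (R + 2 * ε) L) :
    Iso ε (res (Iv R (L + 2 * ε)) F) z ↔ Iso ε F z := by
  classical
  constructor
  · intro h y hy hyz
    by_contra hcon
    rw [not_lt] at hcon
    have h1 : y.1 ∈ Iv R (L + 2 * ε) := by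
      rw [norm1] at hcon
      have h3 : (z.1 - y.1) 0 = z.1 0 - y.1 0 := rfl
      rw [h3, abs_le] at hcon
      obtain ⟨h4, h5⟩ := hcon
      obtain ⟨h6, h7⟩ := hz
      constructor <;> linarith
    have h2 : y ∈ res (Iv R (L + 2 * ε)) F := by
      unfold res
      exact Finset.mem_filter.2 ⟨hy, h1⟩
    exact absurd (h y h2 hyz) (not_lt.2 hcon)
  · intro h y hy hyz
    unfold res at hy
    exact h y (Finset.mem_filter.1 hy).1 hyz

theorem lf_res {ε R L : ℝ} (hε : 0 < ε) (hCT : S_CT) (hDYN : S_DYN) (F : Finset (X 1)) :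
    lf ε (res (Iv R (L + 2 * ε)) F) (Iv (R + 2 * ε) L) = lf ε F (Iv (R + 2 * ε) L) := by
  classical
  ext z
  simp only [lf, Finset.mem_filter]
  have hsub : z.1 ∈ Iv (R + 2 * ε) L → z ∈ F → z ∈ res (Iv R (L + 2 * ε)) F := by
    intro h h2
    unfold res
    refine Finset.mem_filter.2 ⟨h2, ?_⟩
    obtain ⟨h6, h7⟩ := h
    constructor <;> linarith
  constructor
  · rintro ⟨a, b, c, d⟩
    have a' : z ∈ F := by
      unfold res at a
      exact (Finset.mem_filter.1 a).1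
    exact ⟨a', (dt_pos_iff hε hCT hDYN F a').2 ((iso_res F c).1
      ((dt_pos_iff hε hCT hDYN _ a).1 b)), c, d⟩
  · rintro ⟨a, b, c, d⟩
    have a' := hsub c a
    exact ⟨a', (dt_pos_iff hε hCT hDYN _ a').2 ((iso_res F c).2
      ((dt_pos_iff hε hCT hDYN _ a).1 b)), c, d⟩

theorem rt_res {ε R L : ℝ} (hε : 0 < ε) (hCT : S_CT) (hDYN : S_DYN) (F : Finset (X 1)) :
    rt ε (res (Iv R (L + 2 * ε)) F) (Iv (R + 2 * ε) L) = rt ε F (Iv (R + 2 * ε) L) := by
  classical
  ext z
  simp only [rt, Finset.mem_filter]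
  have hsub : z.1 ∈ Iv (R + 2 * ε) L → z ∈ F → z ∈ res (Iv R (L + 2 * ε)) F := by
    intro h h2
    unfold res
    refine Finset.mem_filter.2 ⟨h2, ?_⟩
    obtain ⟨h6, h7⟩ := h
    constructor <;> linarith
  constructor
  · rintro ⟨a, b, c, d⟩
    have a' : z ∈ F := by
      unfold res at a
      exact (Finset.mem_filter.1 a).1
    exact ⟨a', (dt_pos_iff hε hCT hDYN F a').2 ((iso_res F c).1
      ((dt_pos_iff hε hCT hDYN _ a).1 b)), c, d⟩
  · rintro ⟨a, b, c, d⟩
    have a' := hsub c a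
    exact ⟨a', (dt_pos_iff hε hCT hDYN _ a').2 ((iso_res F c).2
      ((dt_pos_iff hε hCT hDYN _ a).1 b)), c, d⟩

theorem meas_card (h1 : S_PO1) (h3 : S_PO3) (m : ℕ) :
    MeasurableSet {F : Finset (X 1) | m < F.card} := by
  have a : Measurable (fun F : Finset (X 1) => (F.card : ℝ≥0∞)) := by
    have h := meas_cn h1 h3 (C := (Set.univ : Set (X 1))) MeasurableSet.univ
    simpa using h
  have e : {F : Finset (X 1) | m < F.card} = {F : Finset (X 1) | (m : ℝ≥0∞) < (F.card : ℝ≥0∞)} := by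
    ext F
    simp
  rw [e]
  exact measurableSet_lt measurable_const a

/-- the number of the points in an interval is tight -/
theorem tight (h1 : S_PO1) (h3 : S_PO3) (hMB : S_MB) (b : ℝ) {p : ℝ≥0∞} (hp : 0 < p) :
    ∃ m : ℕ, poi (mB (Iv 0 b)) {F : Finset (X 1) | m < F.card} ≤ p := by
  classical
  obtain ⟨hfin, -⟩ := (hMB 1 one_pos).2.2.2 (Iv 0 b) (measurableSet_Iv _ _) (vol_Iv_ne _ _)
  haveI := (h1 1 (mB (Iv 0 b))).1
  have hm : ∀ m : ℕ, MeasurableSet {F : Finset (X 1) | m < F.card} := meas_card h1 h3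
  have ht : Tendsto (fun m : ℕ => poi (mB (Iv 0 b)) {F : Finset (X 1) | m < F.card}) atTop
      (𝓝 (poi (mB (Iv 0 b)) (⋂ m : ℕ, {F : Finset (X 1) | m < F.card}))) := by
    refine tendsto_measure_iInter_atTop (fun m => (hm m).nullMeasurableSet) ?_ ⟨0, measure_ne_top _ _⟩
    intro m n hmn F hF
    exact lt_of_le_of_lt hmn hF
  have he : (⋂ m : ℕ, {F : Finset (X 1) | m < F.card}) = ∅ := by
    ext F
    simp only [Set.mem_iInter, Set.mem_ofPred_eq, Set.mem_empty_iff_false, iff_false, not_forall,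
      not_lt]
    exact ⟨F.card, le_refl _⟩
  rw [he, measure_empty] at ht
  obtain ⟨m, hm'⟩ := (ht.eventually_lt_const hp).exists
  exact ⟨m, hm'.le⟩

theorem ball_Iv {Q a b : ℝ} (ha : 0 ≤ a) (hb : b < Q) : Iv a b ⊆ Metric.ball (0 : V 1) Q := by
  intro x hx
  rw [mem_ball_zero_iff, norm1, abs_lt]
  obtain ⟨h1, h2⟩ := hx
  constructor <;> linarith

open Classical in
theorem t_D1B : S_PO1 → S_PO2 → S_PO3 → S_SUP → S_IND → S_MB → S_MAP → S_CT → S_DYN → S_DM →
    S_D1B := by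
  intro h1 _ h3 _ hIND hMB hMAP hCT hDYN hDM ε hε R m A hA
  by_cases hA0 : PQ 1 R A = 0
  · refine ⟨1, one_pos, fun Q _ => ?_⟩
    rw [hA0, mul_zero]
    exact bot_le
  have hApos : 0 < PQ 1 R A := pos_iff_ne_zero.2 hA0
  have hR : (0 : ℝ) ≤ R := Nat.cast_nonneg R
  have hvb : ∀ Q : ℝ, volume (Metric.ball (0 : V 1) Q) ≠ ⊤ := fun Q => measure_ball_lt_top.ne
  have hpR : PQ 1 (R : ℝ) A ≤ 1 := by
    obtain ⟨hfin, -⟩ := (hMB 1 one_pos).2.2.2 (Metric.ball (0 : V 1) R) measurableSet_ball (hvb _)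
    haveI := (h1 1 (mB (Metric.ball (0 : V 1) R))).1
    change poi (mB (Metric.ball (0 : V 1) R)) A ≤ 1
    exact prob_le_one
  obtain ⟨m₀, hm₀⟩ := tight h1 h3 hMB (R + 2 * ε) (p := ENNReal.ofReal (1 / 64) * PQ 1 R A)
    (ENNReal.mul_pos (by simp) hA0)
  obtain ⟨N, hN0, hN⟩ := ev_prob (s := R + 2 * ε) hε h1 h3 hMB hIND hMAP hCT hDYN hDM
    (m + m₀ + 1) (by omega)
  set L : ℝ := R + 2 * ε + N * (1 + 4 * ε) with hL
  have hNl : (0 : ℝ) < N * (1 + 4 * ε) := by positivity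
  refine ⟨L, by rw [hL]; positivity, fun Q hQ => ?_⟩
  set B := Metric.ball (0 : V 1) Q with hB
  set B₁ := Iv (R : ℝ) (L + 2 * ε) with hB₁
  have hsub0 : Metric.ball (0 : V 1) (R : ℝ) ⊆ B := Metric.ball_subset_ball (by linarith)
  have hsub1 : B₁ ⊆ B := ball_Iv hR (by linarith)
  have hsub2 : Iv 0 (R + 2 * ε) ⊆ B := ball_Iv le_rfl (by linarith)
  have hdis : Disjoint (Metric.ball (0 : V 1) (R : ℝ)) B₁ := by
    rw [Set.disjoint_left]
    intro x hx hy
    rw [mem_ball_zero_iff, norm1, abs_lt] at hx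
    exact absurd hy.1 (not_lt.2 hx.2.le)
  set E := Ev ε (Iv (R + 2 * ε) L) (m + m₀ + 1) with hE
  have hEm : MeasurableSet E := meas_Ev hε h1 h3 hDM (measurableSet_Iv _ _) _
  obtain ⟨hfinQ, -⟩ := (hMB 1 one_pos).2.2.2 B measurableSet_ball (hvb _)
  -- the product formula
  have hI := hIND 1 B (Metric.ball (0 : V 1) R) B₁ ∅ one_pos measurableSet_ball (hvb _)
    measurableSet_ball (measurableSet_Iv _ _) MeasurableSet.empty hsub0 hsub1 (Set.empty_subset _)
    hdis (Set.disjoint_empty _) (Set.disjoint_empty _) (A.indicator fun _ => 1)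
    (E.indicator fun _ => 1) (fun _ => 1) (measurable_const.indicator hA)
    (measurable_const.indicator hEm) measurable_const
  have hI1 := hIND 1 B B₁ ∅ ∅ one_pos measurableSet_ball (hvb _)
    (measurableSet_Iv _ _) MeasurableSet.empty MeasurableSet.empty hsub1 (Set.empty_subset _)
    (Set.empty_subset _) (Set.disjoint_empty _) (Set.disjoint_empty _) (Set.disjoint_empty _)
    (E.indicator fun _ => 1) (fun _ => 1) (fun _ => 1)
    (measurable_const.indicator hEm) measurable_const measurable_const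
  have hres : ∀ F : Finset (X 1), res B₁ F ∈ E ↔ F ∈ E := by
    intro F
    simp only [hE, Ev, Set.mem_ofPred_eq, hB₁]
    rw [lf_res hε hCT hDYN F, rt_res hε hCT hDYN F]
  have hEB : ENNReal.ofReal (1 / 16) ≤ poi (mB B₁) E :=
    hN B₁ (measurableSet_Iv _ _) (vol_Iv_ne _ _) fun x hx =>
      ⟨by have := hx.1; linarith, by have := hx.2; linarith⟩
  have hemp : ∫⁻ _ : Finset (X 1), (1 : ℝ≥0∞) ∂(poi (mB (∅ : Set (V 1)))) = 1 := by
    haveI : IsFiniteMeasure (mB (∅ : Set (V 1))) :=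
      ((hMB 1 one_pos).2.2.2 ∅ MeasurableSet.empty (by simp)).1
    rw [lintegral_one, poi_univ h1]
  set S₁ : Set (Finset (X 1)) := {F | res (Metric.ball 0 R) F ∈ A ∧ F ∈ E} with hS₁
  have hprod : PQ 1 Q S₁ = PQ 1 R A * poi (mB B₁) E := by
    have e1 := hI.2.2
    rw [hemp, mul_one] at e1
    have e2 : (fun F : Finset (X 1) => A.indicator (fun _ => (1 : ℝ≥0∞))
        (res (Metric.ball 0 R) F) * E.indicator (fun _ => 1) (res B₁ F) * 1) =
        S₁.indicator 1 := by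
      funext F
      rw [mul_one]
      by_cases ha : res (Metric.ball 0 R) F ∈ A
      · by_cases hb : F ∈ E
        · rw [Set.indicator_of_mem ha, Set.indicator_of_mem ((hres F).2 hb),
            Set.indicator_of_mem (show F ∈ S₁ from ⟨ha, hb⟩)]
          simp
        · rw [Set.indicator_of_notMem (fun h => hb ((hres F).1 h)),
            Set.indicator_of_notMem (fun h : F ∈ S₁ => hb h.2), mul_zero]
      · rw [Set.indicator_of_notMem ha,
            Set.indicator_of_notMem (fun h : F ∈ S₁ => ha h.1), zero_mul]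
    have e3 : MeasurableSet S₁ := by
      have e4 : Measurable (S₁.indicator (1 : Finset (X 1) → ℝ≥0∞)) := by
        rw [← e2]
        refine Measurable.mul (Measurable.mul hI.1 ?_) measurable_const
        exact hI1.1
      have e5 : S₁ = (S₁.indicator (1 : Finset (X 1) → ℝ≥0∞)) ⁻¹' {1} := by
        ext F
        simp [Set.indicator]
      rw [e5]
      exact e4 (measurableSet_singleton 1)
    rw [e2, lintegral_indicator_one e3] at e1
    have e6 : ∀ (ν : Measure (Finset (X 1))) (D : Set (Finset (X 1))), MeasurableSet D →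
        ∫⁻ F, D.indicator (fun _ => (1 : ℝ≥0∞)) F ∂ν = ν D := by
      intro ν D hD
      exact lintegral_indicator_one hD
    rw [e6 _ A hA, e6 _ E hEm] at e1
    exact e1
  -- few points near the origin
  set Z : Set (Finset (X 1)) := {F | m₀ < (res (Iv 0 (R + 2 * ε)) F).card} with hZ
  have hZp : PQ 1 Q Z ≤ ENNReal.ofReal (1 / 64) * PQ 1 R A := by
    have hm : MeasurableSet {F : Finset (X 1) | m₀ < F.card} := meas_card h1 h3 m₀
    have hI2 := hIND 1 B (Iv 0 (R + 2 * ε)) ∅ ∅ one_pos measurableSet_ball (hvb _)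
      (measurableSet_Iv _ _) MeasurableSet.empty MeasurableSet.empty hsub2 (Set.empty_subset _)
      (Set.empty_subset _) (Set.disjoint_empty _) (Set.disjoint_empty _) (Set.disjoint_empty _)
      ({F : Finset (X 1) | m₀ < F.card}.indicator fun _ => 1) (fun _ => 1) (fun _ => 1)
      (measurable_const.indicator hm) measurable_const measurable_const
    have e1 := hI2.2.1
    have e2 : (fun F : Finset (X 1) => {F : Finset (X 1) | m₀ < F.card}.indicator
        (fun _ => (1 : ℝ≥0∞)) (res (Iv 0 (R + 2 * ε)) F)) = Z.indicator 1 := by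
      funext F
      rfl
    have e3 : MeasurableSet Z := by
      have e4 : Measurable (Z.indicator (1 : Finset (X 1) → ℝ≥0∞)) := by
        rw [← e2]
        exact hI2.1
      have e5 : Z = (Z.indicator (1 : Finset (X 1) → ℝ≥0∞)) ⁻¹' {1} := by
        ext F
        simp [Set.indicator]
      rw [e5]
      exact e4 (measurableSet_singleton 1)
    rw [e2, lintegral_indicator_one e3] at e1
    have e7 : ∫⁻ F, {F : Finset (X 1) | m₀ < F.card}.indicator (fun _ => (1 : ℝ≥0∞)) F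
        ∂(poi (mB (Iv 0 (R + 2 * ε)))) = poi (mB (Iv 0 (R + 2 * ε))) {F : Finset (X 1) | m₀ < F.card} :=
      lintegral_indicator_one hm
    rw [e7] at e1
    change poi (mB B) Z ≤ _
    rw [e1]
    exact hm₀
  -- the inclusion
  set S₂ : Set (Finset (X 1)) := {F | res (Metric.ball 0 R) F ∈ A ∧
    (F.filter fun z => 0 < dt ε F z ∧ 0 < z.1 0 ∧ z.1 0 ≤ L ∧ 0 < z.2 0).card + m ≤
    (F.filter fun z => 0 < dt ε F z ∧ 0 < z.1 0 ∧ z.1 0 ≤ L ∧ z.2 0 < 0).card} with hS₂
  have hincl : S₁ ⊆ S₂ ∪ Z := by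
    rintro F ⟨ha, hb⟩
    by_cases hz : F ∈ Z
    · exact Or.inr hz
    · refine Or.inl ⟨ha, ?_⟩
      have hz' : (res (Iv 0 (R + 2 * ε)) F).card ≤ m₀ := not_lt.1 hz
      have hb' : (rt ε F (Iv (R + 2 * ε) L)).card + (m + m₀ + 1) ≤
          (lf ε F (Iv (R + 2 * ε) L)).card := hb
      have c1 : lf ε F (Iv (R + 2 * ε) L) ⊆
          F.filter fun z => 0 < dt ε F z ∧ 0 < z.1 0 ∧ z.1 0 ≤ L ∧ z.2 0 < 0 := by
        intro z hz
        unfold lf at hz
        obtain ⟨a, b, ⟨c, d⟩, e⟩ := Finset.mem_filter.1 hz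
        exact Finset.mem_filter.2 ⟨a, b, lt_of_le_of_lt (by positivity) c, d, e⟩
      have c2 : (F.filter fun z => 0 < dt ε F z ∧ 0 < z.1 0 ∧ z.1 0 ≤ L ∧ 0 < z.2 0) ⊆
          rt ε F (Iv (R + 2 * ε) L) ∪ res (Iv 0 (R + 2 * ε)) F := by
        intro z hz
        obtain ⟨a, b, c, d, e⟩ := Finset.mem_filter.1 hz
        rw [Finset.mem_union]
        rcases le_or_gt (z.1 0) (R + 2 * ε) with h | h
        · right
          unfold res
          exact Finset.mem_filter.2 ⟨a, c, h⟩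
        · left
          unfold rt
          exact Finset.mem_filter.2 ⟨a, b, ⟨h, d⟩, e⟩
      have c3 := Finset.card_le_card c1
      have c4 := (Finset.card_le_card c2).trans (Finset.card_union_le _ _)
      omega
  have hfinal : PQ 1 R A * ENNReal.ofReal (1 / 16) ≤ PQ 1 Q S₂ + ENNReal.ofReal (1 / 64) * PQ 1 R A :=
    calc PQ 1 R A * ENNReal.ofReal (1 / 16) ≤ PQ 1 R A * poi (mB B₁) E := by gcongr
      _ = PQ 1 Q S₁ := hprod.symm
      _ ≤ PQ 1 Q (S₂ ∪ Z) := measure_mono hincl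
      _ ≤ PQ 1 Q S₂ + PQ 1 Q Z := measure_union_le _ _
      _ ≤ _ := by gcongr
  obtain ⟨x, hx0, hx⟩ : ∃ x : ℝ, 0 ≤ x ∧ PQ 1 (R : ℝ) A = ENNReal.ofReal x :=
    ⟨(PQ 1 (R : ℝ) A).toReal, ENNReal.toReal_nonneg,
      (ENNReal.ofReal_toReal (ne_top_of_le_ne_top one_ne_top hpR)).symm⟩
  have hgoal : ENNReal.ofReal (1 / 32) * PQ 1 R A ≤ PQ 1 Q S₂ := by
    by_cases ht : PQ 1 Q S₂ = ⊤
    · rw [ht]
      exact le_top
    · obtain ⟨y, hy0, hy⟩ : ∃ y : ℝ, 0 ≤ y ∧ PQ 1 Q S₂ = ENNReal.ofReal y :=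
        ⟨(PQ 1 Q S₂).toReal, ENNReal.toReal_nonneg, (ENNReal.ofReal_toReal ht).symm⟩
      rw [hx, hy] at hfinal ⊢
      rw [← ENNReal.ofReal_mul hx0, ← ENNReal.ofReal_mul (by norm_num),
        ← ENNReal.ofReal_add hy0 (by positivity),
        ENNReal.ofReal_le_ofReal_iff (by positivity)] at hfinal
      rw [← ENNReal.ofReal_mul (by norm_num)]
      refine ENNReal.ofReal_le_ofReal ?_
      nlinarith
  exact hgoal

end Pool.Agent.Run7.h863.Met
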