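import Pool.Agent.Run7.h146.Met.I1

set_option autoImplicit false

open MeasureTheory Filter Topology ENNReal

namespace Pool.Agent.Run7.h863.Met

theorem image_inst {α β : Type*} (i1 i2 : DecidableEq β) (f : α → β) (s : Finset α) :
    @Finset.image α β i1 f s = @Finset.image α β i2 f s := by
  rw [Subsingleton.elim i1 i2]

open Run7.h146.Met

/-- the iteration which computes the removal times -/
noncomputable def it {d : ℕ} (ε : ℝ) {n : ℕ} : ℕ → X d → (Fin n → X d) → ℝ≥0∞
  | 0, _, _ => ⊤
  | k + 1, z, y => ⨅ i : Fin n, ⨅ (_ : y i ≠ z ∧ ct ε z (y i) ≤ it ε k (y i) y), ct ε z (y i)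

theorem it_succ {d : ℕ} (ε : ℝ) {n : ℕ} (k : ℕ) (z : X d) (y : Fin n → X d) :
    it ε (k + 1) z y = ⨅ i : Fin n, ⨅ (_ : y i ≠ z ∧ ct ε z (y i) ≤ it ε k (y i) y),
      ct ε z (y i) := by
  rw [it]

theorem it_zero {d : ℕ} (ε : ℝ) {n : ℕ} (z : X d) (y : Fin n → X d) :
    it ε 0 z y = ⊤ := by
  rw [it]

attribute [irreducible] it

theorem measurableSet_eq_X {d : ℕ} {α : Type*} [MeasurableSpace α] {f g : α → X d}
    (hf : Measurable f) (hg : Measurable g) : MeasurableSet {a | f a = g a} := by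
  have h : {a | f a = g a} = (fun a => (f a, g a)) ⁻¹' Set.diagonal (X d) := by
    ext a
    simp
  rw [h]
  exact (hf.prodMk hg) isClosed_diagonal.measurableSet

set_option maxHeartbeats 400000 in
theorem measurable_it {d : ℕ} {ε : ℝ} (hct : Measurable (fun p : X d × X d => ct ε p.1 p.2))
    {n : ℕ} (k : ℕ) : Measurable fun p : X d × (Fin n → X d) => it ε k p.1 p.2 := by
  induction k with
  | zero =>
    simp only [it_zero]
    exact measurable_const
  | succ k ih =>
    have h : (fun p : X d × (Fin n → X d) => it ε (k + 1) p.1 p.2) = fun p => ⨅ i : Fin n,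
        if p.2 i ≠ p.1 ∧ ct ε p.1 (p.2 i) ≤ it ε k (p.2 i) p.2 then ct ε p.1 (p.2 i) else ⊤ := by
      funext p
      rw [it_succ]
      refine iInf_congr fun i => ?_
      split_ifs with h
      · exact iInf_pos h
      · exact iInf_neg h
    rw [h]
    refine Measurable.iInf fun i => ?_
    have hi : Measurable fun p : X d × (Fin n → X d) => p.2 i :=
      (measurable_pi_apply i).comp measurable_snd
    have hp1 : Measurable fun p : X d × (Fin n → X d) => (p.1, p.2 i) :=
      Measurable.prodMk measurable_fst hi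
    have hp2 : Measurable fun p : X d × (Fin n → X d) => (p.2 i, p.2) :=
      Measurable.prodMk hi measurable_snd
    have hc : Measurable fun p : X d × (Fin n → X d) => ct ε p.1 (p.2 i) := by
      have h := hct.comp hp1
      exact h
    have hI : Measurable fun p : X d × (Fin n → X d) => it ε k (p.2 i) p.2 := by
      have h := ih.comp hp2
      exact h
    refine Measurable.ite ?_ hc measurable_const
    exact (measurableSet_eq_X hi measurable_fst).compl.inter (measurableSet_le hc hI)

open Classical in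
theorem it_spec {d : ℕ} {ε : ℝ} {n : ℕ} (y : Fin n → X d) (D : X d → ℝ≥0∞)
    (hD : IsD ε (Finset.univ.image y) D) (k : ℕ) :
    ∀ a : ℝ≥0∞, (((Finset.univ : Finset (Fin n × Fin n)).image
      fun p => ct ε (y p.1) (y p.2)).filter (· ≤ a)).card ≤ k →
      ∀ j : Fin n, (it ε k (y j) y ≤ a ↔ D (y j) ≤ a) := by
  set Vals := (Finset.univ : Finset (Fin n × Fin n)).image fun p => ct ε (y p.1) (y p.2) with hV
  have hmem : ∀ i j : Fin n, ct ε (y i) (y j) ∈ Vals := fun i j =>
    Finset.mem_image.2 ⟨(i, j), Finset.mem_univ _, rfl⟩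
  have hDle : ∀ (a : ℝ≥0∞), a < ⊤ → ∀ j : Fin n, (D (y j) ≤ a ↔
      ∃ i : Fin n, y i ≠ y j ∧ ct ε (y j) (y i) ≤ D (y i) ∧ ct ε (y j) (y i) ≤ a) := by
    intro a ha j
    have h1 := hD (y j) (Finset.mem_image_of_mem y (Finset.mem_univ j))
    have h2 : (⨅ (x : X d) (_ : x ∈ Finset.univ.image y ∧ x ≠ y j ∧ ct ε (y j) x ≤ D x),
        ct ε (y j) x) = ((Finset.univ.image y).filter
          fun x => x ≠ y j ∧ ct ε (y j) x ≤ D x).inf (fun x => ct ε (y j) x) := by
      rw [Finset.inf_eq_iInf]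
      refine iInf_congr fun x => ?_
      simp only [Finset.mem_filter]
    rw [h1, h2, Finset.inf_le_iff ha]
    constructor
    · rintro ⟨x, hx, hxa⟩
      obtain ⟨hxS, hx1, hx2⟩ := Finset.mem_filter.1 hx
      obtain ⟨i, -, rfl⟩ := Finset.mem_image.1 hxS
      exact ⟨i, hx1, hx2, hxa⟩
    · rintro ⟨i, h3, h4, h5⟩
      exact ⟨y i, Finset.mem_filter.2 ⟨Finset.mem_image_of_mem y (Finset.mem_univ i), h3, h4⟩, h5⟩
  have hIle : ∀ (k : ℕ) (a : ℝ≥0∞), a < ⊤ → ∀ j : Fin n, (it ε (k + 1) (y j) y ≤ a ↔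
      ∃ i : Fin n, y i ≠ y j ∧ ct ε (y j) (y i) ≤ it ε k (y i) y ∧ ct ε (y j) (y i) ≤ a) := by
    intro k a ha j
    have h2 : it ε (k + 1) (y j) y = ((Finset.univ : Finset (Fin n)).filter
          fun i => y i ≠ y j ∧ ct ε (y j) (y i) ≤ it ε k (y i) y).inf
            (fun i => ct ε (y j) (y i)) := by
      rw [Finset.inf_eq_iInf, it_succ]
      refine iInf_congr fun i => ?_
      simp only [Finset.mem_filter, Finset.mem_univ, true_and]
    rw [h2, Finset.inf_le_iff ha]
    constructor
    · rintro ⟨i, hi, hia⟩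
      obtain ⟨-, h3, h4⟩ := Finset.mem_filter.1 hi
      exact ⟨i, h3, h4, hia⟩
    · rintro ⟨i, h3, h4, h5⟩
      exact ⟨i, Finset.mem_filter.2 ⟨Finset.mem_univ i, h3, h4⟩, h5⟩
  induction k with
  | zero =>
    intro a ha j
    by_cases hat : a = ⊤
    · simp [hat]
    · have hat' : a < ⊤ := lt_top_iff_ne_top.2 hat
      constructor
      · intro h
        rw [it_zero] at h
        exact absurd (top_le_iff.1 h) hat
      · intro h
        obtain ⟨i, -, -, h5⟩ := (hDle a hat' j).1 h
        have h6 : ct ε (y j) (y i) ∈ Vals.filter (· ≤ a) := Finset.mem_filter.2 ⟨hmem j i, h5⟩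
        have h7 := Finset.card_pos.2 ⟨_, h6⟩
        omega
  | succ k ih =>
    intro a ha j
    by_cases hat : a = ⊤
    · simp [hat]
    · have hat' : a < ⊤ := lt_top_iff_ne_top.2 hat
      rw [hDle a hat' j, hIle k a hat' j]
      have key : ∀ i : Fin n, ct ε (y j) (y i) ≤ a →
          (ct ε (y j) (y i) ≤ it ε k (y i) y ↔ ct ε (y j) (y i) ≤ D (y i)) := by
        intro i hi
        have hcard : ∀ b : ℝ≥0∞, b < ct ε (y j) (y i) → (Vals.filter (· ≤ b)).card ≤ k := by
          intro b hb
          have h8 : Vals.filter (· ≤ b) ⊂ Vals.filter (· ≤ a) := by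
            rw [Finset.ssubset_iff_of_subset]
            · refine ⟨ct ε (y j) (y i), Finset.mem_filter.2 ⟨hmem j i, hi⟩, fun h9 => ?_⟩
              exact absurd (Finset.mem_filter.1 h9).2 (not_le.2 hb)
            · intro x hx
              obtain ⟨hx1, hx2⟩ := Finset.mem_filter.1 hx
              exact Finset.mem_filter.2 ⟨hx1, hx2.trans (hb.le.trans hi)⟩
          have h10 := Finset.card_lt_card h8
          omega
        rw [← not_lt, ← not_lt, not_iff_not]
        constructor
        · intro h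
          exact lt_of_le_of_lt ((ih _ (hcard _ h) i).1 le_rfl) h
        · intro h
          exact lt_of_le_of_lt ((ih _ (hcard _ h) i).2 le_rfl) h
      constructor
      · rintro ⟨i, h3, h4, h5⟩
        exact ⟨i, h3, (key i h5).1 h4, h5⟩
      · rintro ⟨i, h3, h4, h5⟩
        exact ⟨i, h3, (key i h5).2 h4, h5⟩

open Classical in
theorem it_eq {d : ℕ} {ε : ℝ} {n : ℕ} (y : Fin n → X d) (D : X d → ℝ≥0∞)
    (hD : IsD ε (Finset.univ.image y) D) (j : Fin n) : it ε (n * n) (y j) y = D (y j) := by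
  have h : ∀ a : ℝ≥0∞, (it ε (n * n) (y j) y ≤ a ↔ D (y j) ≤ a) := by
    intro a
    refine it_spec y D hD (n * n) a ?_ j
    refine (Finset.card_filter_le _ _).trans (Finset.card_image_le.trans ?_)
    simp
  exact le_antisymm ((h _).2 le_rfl) ((h _).1 le_rfl)

open Classical in
theorem t_DM : S_CT → S_DYN → S_DM := by
  intro hCT hDYN d ε hε n
  obtain ⟨hct, -⟩ := hCT d ε hε
  have h1 : (fun p : X d × (Fin n → X d) => dt ε (Finset.univ.image p.2) p.1) = fun p =>
      if ∃ i, p.2 i = p.1 then it ε (n * n) p.1 p.2 else 0 := by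
    funext p
    obtain ⟨h2, h3, -⟩ := hDYN d ε (Finset.univ.image p.2)
    by_cases h : ∃ i, p.2 i = p.1
    · rw [if_pos h]
      obtain ⟨i, hi⟩ := h
      rw [← hi, it_eq p.2 _ h2 i]
    · rw [if_neg h]
      refine h3 p.1 fun h4 => h ?_
      obtain ⟨i, -, hi⟩ := Finset.mem_image.1 h4
      exact ⟨i, hi⟩
  have h5 : Measurable fun p : X d × (Fin n → X d) =>
      if ∃ i, p.2 i = p.1 then it ε (n * n) p.1 p.2 else 0 := by
    refine Measurable.ite ?_ (measurable_it hct (n * n)) measurable_const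
    have h6 : {p : X d × (Fin n → X d) | ∃ i, p.2 i = p.1} = ⋃ i, {p | p.2 i = p.1} := by
      ext p
      simp
    rw [h6]
    exact MeasurableSet.iUnion fun i =>
      measurableSet_eq_X ((measurable_pi_apply i).comp measurable_snd) measurable_fst
  rw [← h1] at h5
  convert h5 using 1
  funext p
  exact congrArg (fun F => dt ε F p.1) (image_inst _ _ _ _)

end Pool.Agent.Run7.h863.Met
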