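import Pool.Agent.Run7.h863.Met.Blk

/-!
# Annihilating meteors (helper146), piece D1B: averaging over the flips
-/

set_option autoImplicit false

open MeasureTheory Filter Topology ENNReal

namespace Pool.Agent.Run7.h863.Met

open Run7.h146.Met

theorem measurableSet_Tb (s l : ℝ) {N : ℕ} (σ : Fin N → Bool) : MeasurableSet (Tb s l σ) := by
  have h : Tb s l σ = ⋃ k : Fin N, {x | σ k = true ∧ x ∈ Jb s l k} := by
    ext x
    simp [Tb]
  rw [h]
  refine MeasurableSet.iUnion fun k => ?_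
  by_cases hk : σ k = true
  · have : {x : V 1 | σ k = true ∧ x ∈ Jb s l k} = Jb s l k := by
      ext x
      simp [hk]
    rw [this]
    exact measurableSet_Jb s l k
  · have : {x : V 1 | σ k = true ∧ x ∈ Jb s l k} = ∅ := by
      ext x
      simp [hk]
    rw [this]
    exact MeasurableSet.empty

open Classical in
/-- the pointwise inequality -/
theorem ptwise {ε s : ℝ} (hε : 0 < ε) (hCT : S_CT) (hDYN : S_DYN) (m N : ℕ) (hm : 0 < m)
    (F : Finset (X 1)) :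
    ENNReal.ofReal (3 / 32 * 2 ^ N) ≤
      (∑ σ : Fin N → Bool, (Ev ε (Iv s (s + N * (1 + 4 * ε))) m).indicator (fun _ => (1 : ℝ≥0∞))
        (F.image (fl (Tb s (1 + 4 * ε) σ)))) +
      ENNReal.ofReal (3 / 32 * 2 ^ N) * (2 ^ (4 * m ^ 2) *
        ∏ k ∈ Finset.range N, gw ε s (1 + 4 * ε) k F) := by
  set K := ((Finset.range N).filter fun k => Good ε s (1 + 4 * ε) k F).card with hK
  by_cases hc : 4 * m ^ 2 ≤ K
  · refine le_trans ?_ (le_add_of_nonneg_right bot_le)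
    have hl : (0 : ℝ) < 1 + 4 * ε := by positivity
    have h1 : ∀ σ : Fin N → Bool, F.image (fl (Tb s (1 + 4 * ε) σ)) ∈
        Ev ε (Iv s (s + N * (1 + 4 * ε))) m ↔
        (m : ℝ) ≤ ∑ k : Fin N, sg (σ k) * df ε F (Jb s (1 + 4 * ε) k) := by
      intro σ
      rw [← df_flip hε hCT hDYN hl σ F]
      simp only [Ev, Set.mem_ofPred_eq, df]
      rw [le_sub_iff_add_le, add_comm (m : ℝ)]
      exact_mod_cast Iff.rfl
    have h2 : (∑ σ : Fin N → Bool, (Ev ε (Iv s (s + N * (1 + 4 * ε))) m).indicator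
        (fun _ => (1 : ℝ≥0∞)) (F.image (fl (Tb s (1 + 4 * ε) σ)))) =
        ((Finset.univ.filter fun σ : Fin N → Bool =>
          (m : ℝ) ≤ ∑ k : Fin N, sg (σ k) * df ε F (Jb s (1 + 4 * ε) k)).card : ℝ≥0∞) := by
      rw [← Finset.sum_boole]
      refine Finset.sum_congr rfl fun σ _ => ?_
      by_cases h : F.image (fl (Tb s (1 + 4 * ε) σ)) ∈ Ev ε (Iv s (s + N * (1 + 4 * ε))) m
      · rw [Set.indicator_of_mem h, if_pos ((h1 σ).1 h)]
      · rw [Set.indicator_of_notMem h, if_neg fun h3 => h ((h1 σ).2 h3)]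
    have h3 : (4 : ℝ) * m ^ 2 ≤ ∑ k : Fin N, df ε F (Jb s (1 + 4 * ε) k) ^ 2 := by
      rw [Fin.sum_univ_eq_sum_range (fun k => df ε F (Jb s (1 + 4 * ε) k) ^ 2) N]
      calc (4 : ℝ) * m ^ 2 ≤ K := by exact_mod_cast hc
        _ = ∑ k ∈ (Finset.range N).filter (fun k => Good ε s (1 + 4 * ε) k F), (1 : ℝ) := by
            rw [hK]; simp
        _ ≤ ∑ k ∈ (Finset.range N).filter (fun k => Good ε s (1 + 4 * ε) k F),
              df ε F (Jb s (1 + 4 * ε) k) ^ 2 :=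
            Finset.sum_le_sum fun k hk => good_sq hε hCT hDYN k F (Finset.mem_filter.1 hk).2
        _ ≤ _ := Finset.sum_le_sum_of_subset_of_nonneg (Finset.filter_subset _ _)
            fun _ _ _ => by positivity
    have h4 : (0 : ℝ) < ∑ k : Fin N, df ε F (Jb s (1 + 4 * ε) k) ^ 2 := by
      have : (0 : ℝ) < 4 * m ^ 2 := by positivity
      linarith
    have h5 := rad (fun k : Fin N => df ε F (Jb s (1 + 4 * ε) k)) (m : ℝ) h3 h4
    rw [Fintype.card_fin] at h5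
    rw [h2]
    refine ENNReal.ofReal_le_of_le_toReal ?_
    simpa using h5
  · refine le_trans ?_ (le_add_of_nonneg_left bot_le)
    have h6 : (1 : ℝ≥0∞) ≤ 2 ^ (4 * m ^ 2) * ∏ k ∈ Finset.range N, gw ε s (1 + 4 * ε) k F := by
      have h7 : ∏ k ∈ Finset.range N, gw ε s (1 + 4 * ε) k F = (1 / 2) ^ K := by
        unfold gw
        rw [Finset.prod_ite, Finset.prod_const, Finset.prod_const_one, mul_one]
      rw [h7, not_le] at *
      have h8 : ((1 : ℝ≥0∞) / 2) ^ (4 * m ^ 2) ≤ (1 / 2) ^ K :=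
        pow_le_pow_of_le_one bot_le (by simp) hc.le
      calc (1 : ℝ≥0∞) = 2 ^ (4 * m ^ 2) * (1 / 2) ^ (4 * m ^ 2) := by
            rw [← mul_pow, one_div, ENNReal.mul_inv_cancel (by simp) (by simp), one_pow]
        _ ≤ _ := by gcongr
    calc ENNReal.ofReal (3 / 32 * 2 ^ N) = ENNReal.ofReal (3 / 32 * 2 ^ N) * 1 := (mul_one _).symm
      _ ≤ _ := by gcongr

open Classical in
/-- the probability of the event `Ev` is at least `1/16` -/
theorem ev_prob {ε s : ℝ} (hε : 0 < ε) (h1 : S_PO1) (h3 : S_PO3) (hMB : S_MB) (hIND : S_IND)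
    (hMAP : S_MAP) (hCT : S_CT) (hDYN : S_DYN) (hDM : S_DM) (m : ℕ) (hm : 0 < m) :
    ∃ N : ℕ, 0 < N ∧ ∀ B : Set (V 1), MeasurableSet B → volume B ≠ ⊤ →
      Iv s (s + N * (1 + 4 * ε)) ⊆ B →
      ENNReal.ofReal (1 / 16) ≤ poi (mB B) (Ev ε (Iv s (s + N * (1 + 4 * ε))) m) := by
  set q : ℝ := 1 - Real.exp (-(1 + 4 * ε)) / 2 with hq
  have he0 := Real.exp_pos (-(1 + 4 * ε))
  have he1 : Real.exp (-(1 + 4 * ε)) < 1 := Real.exp_lt_one_iff.2 (by linarith)
  have hq0 : 0 ≤ q := by rw [hq]; linarith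
  have hq1 : q < 1 := by rw [hq]; linarith
  have ht : Tendsto (fun n : ℕ => (2 : ℝ) ^ (4 * m ^ 2) * q ^ n) atTop (𝓝 0) := by
    have := (tendsto_pow_atTop_nhds_zero_of_lt_one hq0 hq1).const_mul ((2 : ℝ) ^ (4 * m ^ 2))
    simpa using this
  obtain ⟨N, hN1, hN2⟩ := ((ht.eventually_lt_const (show (0 : ℝ) < 1 / 3 by norm_num)).and
    (eventually_gt_atTop 0)).exists
  refine ⟨N, hN2, fun B hBm hBv hsub => ?_⟩
  obtain ⟨hfin, -⟩ := (hMB 1 one_pos).2.2.2 B hBm hBv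
  haveI := (h1 1 (mB B)).1
  set E := Ev ε (Iv s (s + N * (1 + 4 * ε))) m with hE
  have hEm : MeasurableSet E := meas_Ev hε h1 h3 hDM (measurableSet_Iv _ _) m
  set c : ℝ≥0∞ := ENNReal.ofReal (3 / 32 * 2 ^ N) with hc
  have hGm : Measurable (E.indicator (fun _ => (1 : ℝ≥0∞))) := measurable_const.indicator hEm
  have hmap : ∀ σ : Fin N → Bool,
      Measurable (fun F : Finset (X 1) => E.indicator (fun _ => (1 : ℝ≥0∞))
        (F.image (fl (Tb s (1 + 4 * ε) σ)))) ∧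
      ∫⁻ F, E.indicator (fun _ => (1 : ℝ≥0∞)) (F.image (fl (Tb s (1 + 4 * ε) σ))) ∂(poi (mB B)) =
        poi (mB B) E := by
    intro σ
    have h := hMAP 1 (mB B) (flE (Tb s (1 + 4 * ε) σ) (measurableSet_Tb s _ σ))
      (E.indicator (fun _ => (1 : ℝ≥0∞))) hGm
    rw [map_fl hMB] at h
    refine ⟨h.1, ?_⟩
    rw [← lintegral_indicator_one hEm]
    exact h.2.symm
  have hint : c ≤ ∫⁻ F, ((∑ σ : Fin N → Bool, E.indicator (fun _ => (1 : ℝ≥0∞))
        (F.image (fl (Tb s (1 + 4 * ε) σ)))) +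
      c * (2 ^ (4 * m ^ 2) * ∏ k ∈ Finset.range N, gw ε s (1 + 4 * ε) k F)) ∂(poi (mB B)) := by
    calc c = ∫⁻ _ : Finset (X 1), c ∂(poi (mB B)) := by simp
      _ ≤ _ := lintegral_mono fun F => ptwise hε hCT hDYN m N hm F
  have hpm : Measurable fun F => ∏ k ∈ Finset.range N, gw ε s (1 + 4 * ε) k F :=
    Finset.measurable_prod _ fun k _ => meas_gw h1 h3 ε s _ k
  rw [lintegral_add_left (Finset.measurable_sum _ fun σ _ => (hmap σ).1),
    lintegral_finsetSum _ fun σ _ => (hmap σ).1] at hint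
  simp only [(hmap _).2] at hint
  rw [Finset.sum_const, Finset.card_univ, Fintype.card_fun, Fintype.card_bool, Fintype.card_fin,
    nsmul_eq_mul, lintegral_const_mul _ (hpm.const_mul _), lintegral_const_mul _ hpm] at hint
  have hprod := prod_mean (s := s) hε rfl h1 h3 hMB hIND N B hBm hBv hsub
  have h13 : (2 : ℝ≥0∞) ^ (4 * m ^ 2) * ∫⁻ F, ∏ k ∈ Finset.range N, gw ε s (1 + 4 * ε) k F
      ∂(poi (mB B)) ≤ ENNReal.ofReal (1 / 3) := by
    refine (mul_le_mul_right hprod _).trans ?_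
    rw [← hq, ← ENNReal.ofReal_pow hq0, show (2 : ℝ≥0∞) ^ (4 * m ^ 2) =
      ENNReal.ofReal (2 ^ (4 * m ^ 2)) by
        rw [ENNReal.ofReal_pow (by norm_num)]; simp, ← ENNReal.ofReal_mul (by positivity)]
    exact ENNReal.ofReal_le_ofReal hN1.le
  have h14 : c ≤ ((2 ^ N : ℕ) : ℝ≥0∞) * poi (mB B) E + c * ENNReal.ofReal (1 / 3) :=
    hint.trans (by gcongr)
  obtain ⟨x, hx0, hx⟩ : ∃ x : ℝ, 0 ≤ x ∧ poi (mB B) E = ENNReal.ofReal x :=
    ⟨(poi (mB B) E).toReal, ENNReal.toReal_nonneg, (ENNReal.ofReal_toReal (measure_ne_top _ _)).symm⟩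
  rw [hx] at h14 ⊢
  rw [hc, show ((2 ^ N : ℕ) : ℝ≥0∞) = ENNReal.ofReal (2 ^ N) by
    rw [ENNReal.ofReal_pow (by norm_num)]; simp, ← ENNReal.ofReal_mul (by positivity),
    ← ENNReal.ofReal_mul (by positivity), ← ENNReal.ofReal_add (by positivity) (by positivity),
    ENNReal.ofReal_le_ofReal_iff (by positivity)] at h14
  refine ENNReal.ofReal_le_ofReal ?_
  have h15 : (0 : ℝ) < 2 ^ N := by positivity
  by_contra hcon
  rw [not_le] at hcon
  nlinarith

end Pool.Agent.Run7.h863.Met
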