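import Pool.Agent.Run7.h863.Met.Mea

/-!
# Annihilating meteors (helper146), piece D1B: many good blocks
-/

set_option autoImplicit false

open MeasureTheory Filter Topology ENNReal

namespace Pool.Agent.Run7.h863.Met

open Run7.h146.Met

theorem poi_univ (h1 : S_PO1) {ν : Measure (X 1)} [IsFiniteMeasure ν] : poi ν Set.univ = 1 := by
  haveI := (h1 1 ν).1
  exact measure_univ

/-- a block is good with probability at least `e^{-(1+4ε)}` -/
theorem good_prob {ε s l : ℝ} (hε : 0 < ε) (hl : l = 1 + 4 * ε) (h1 : S_PO1) (h3 : S_PO3)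
    (hMB : S_MB) (k : ℕ) :
    ENNReal.ofReal (Real.exp (-(1 + 4 * ε))) ≤ poi (mB (Jb s l k)) {F | Good ε s l k F} := by
  classical
  obtain ⟨hp, hn, -, hB⟩ := hMB 1 one_pos
  obtain ⟨hfin, -⟩ := hB (Jb s l k) (measurableSet_Jb s l k) (vol_Iv_ne _ _)
  have hGm := meas_Good h1 h3 ε s l k
  have hmass : (mB (Jb s l k) Set.univ).toReal = 1 + 4 * ε := by
    unfold mB
    rw [← Set.univ_prod_univ, Measure.prod_prod, measure_univ (μ := sig 1), mul_one,
      Measure.restrict_apply_univ, Jb, vol_Iv, ENNReal.toReal_ofReal]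
    · rw [hl]
      push_cast
      ring
    · rw [hl]
      push_cast
      nlinarith
  have hM : mB (Jb s l k) (Mb ε s l k) = 1 := by
    have e1 : Mb ε s l k = Iv (s + k * l + 2 * ε) (s + k * l + 2 * ε + 1) ×ˢ {v : V 1 | v 0 ≠ 0} := by
      ext z
      simp only [Mb, Iv, Set.mem_prod, Set.mem_ofPred_eq, and_assoc]
    have e2 : sig 1 {v : V 1 | v 0 ≠ 0} = 1 := by
      have e3 : sig 1 {v : V 1 | v 0 ≠ 0}ᶜ = 0 := by
        refine measure_mono_null ?_ hn
        intro v hv
        simp only [Set.mem_compl_iff, Set.mem_ofPred_eq, not_not] at hv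
        simp only [Set.mem_ofPred_eq]
        rw [norm1, hv]
        simp
      have e4 : MeasurableSet {v : V 1 | v 0 ≠ 0} :=
        (measurableSet_eq_fun meas_coord measurable_const).compl
      exact (prob_compl_eq_zero_iff e4).1 e3
    unfold mB
    rw [e1, Measure.prod_prod, e2, mul_one, Measure.restrict_apply (measurableSet_Iv _ _)]
    have e5 : Iv (s + k * l + 2 * ε) (s + k * l + 2 * ε + 1) ∩ Jb s l k =
        Iv (s + k * l + 2 * ε) (s + k * l + 2 * ε + 1) := by
      refine Set.inter_eq_left.2 fun x hx => ?_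
      obtain ⟨a, b⟩ := hx
      simp only [Jb, Iv, Set.mem_ofPred_eq]
      push_cast
      constructor <;> nlinarith
    rw [e5, vol_Iv]
    norm_num
  have h4 := (h1 1 (mB (Jb s l k))).2.1 (fun F => if Good ε s l k F then 1 else 0)
    (Measurable.ite hGm measurable_const measurable_const)
  have h5 : ∫⁻ F, (if Good ε s l k F then 1 else 0) ∂(poi (mB (Jb s l k))) =
      poi (mB (Jb s l k)) {F | Good ε s l k F} := by
    have h6 : (fun F : Finset (X 1) => if Good ε s l k F then (1 : ℝ≥0∞) else 0) =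
        {F | Good ε s l k F}.indicator 1 := by
      funext F
      simp [Set.indicator]
    rw [h6, lintegral_indicator_one hGm]
  rw [← h5, h4]
  refine le_trans ?_ (ENNReal.le_tsum 1)
  rw [hmass]
  have h7 : (1 : ℝ≥0∞) ≤ ∫⁻ y : Fin 1 → X 1, (if Good ε s l k (Finset.univ.image y) then 1 else 0)
      ∂(Measure.pi fun _ => mB (Jb s l k)) := by
    have h8 : (Measure.pi fun _ : Fin 1 => mB (Jb s l k)) (Set.univ.pi fun _ => Mb ε s l k) = 1 := by
      rw [Measure.pi_pi]
      simp [hM]
    refine (h8.symm.trans (lintegral_indicator_one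
      (MeasurableSet.univ_pi fun _ => measurableSet_Mb ε s l k)).symm).le.trans ?_
    refine lintegral_mono fun y => ?_
    by_cases hy : y ∈ Set.univ.pi fun _ : Fin 1 => Mb ε s l k
    · rw [Set.indicator_of_mem hy, if_pos]
      · rfl
      · have hy0 : y 0 ∈ Mb ε s l k := hy 0 (Set.mem_univ _)
        have h9 : Finset.univ.image y = {y 0} := by
          ext z
          simp only [Finset.mem_image, Finset.mem_univ, true_and, Finset.mem_singleton]
          constructor
          · rintro ⟨i, rfl⟩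
            rw [Subsingleton.elim i 0]
          · rintro rfl
            exact ⟨0, rfl⟩
        have hyJ : (y 0).1 ∈ Jb s l k := by
          obtain ⟨b1, b2, -⟩ := hy0
          simp only [Jb, Iv, Set.mem_ofPred_eq]
          push_cast
          constructor <;> nlinarith
        rw [h9]
        constructor
        · rw [Finset.filter_singleton, if_pos hy0, Finset.card_singleton]
        · rw [Finset.filter_singleton, if_pos hyJ, Finset.card_singleton]
    · rw [Set.indicator_of_notMem hy]
      exact bot_le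
  calc ENNReal.ofReal (Real.exp (-(1 + 4 * ε)))
      = ENNReal.ofReal (Real.exp (-(1 + 4 * ε))) / ((Nat.factorial 1 : ℕ) : ℝ≥0∞) * 1 := by
        simp
    _ ≤ _ := by
        refine mul_le_mul_right ?_ _
        exact h7

/-- the mean weight of a block -/
theorem gw_mean {ε s l : ℝ} (hε : 0 < ε) (hl : l = 1 + 4 * ε) (h1 : S_PO1) (h3 : S_PO3)
    (hMB : S_MB) (k : ℕ) :
    ∫⁻ F, gw ε s l k F ∂(poi (mB (Jb s l k))) ≤
      ENNReal.ofReal (1 - Real.exp (-(1 + 4 * ε)) / 2) := by
  classical
  obtain ⟨-, -, -, hB⟩ := hMB 1 one_pos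
  obtain ⟨hfin, -⟩ := hB (Jb s l k) (measurableSet_Jb s l k) (vol_Iv_ne _ _)
  haveI := (h1 1 (mB (Jb s l k))).1
  have hGm := meas_Good h1 h3 ε s l k
  have h2 := good_prob (s := s) hε hl h1 h3 hMB k
  set P := poi (mB (Jb s l k)) with hP
  have h4 : ∫⁻ F, gw ε s l k F ∂P + ∫⁻ F, {F | Good ε s l k F}.indicator (fun _ => 1 / 2) F ∂P =
      1 := by
    rw [← lintegral_add_left (meas_gw h1 h3 ε s l k)]
    have h5 : ∀ F : Finset (X 1), gw ε s l k F +
        {F | Good ε s l k F}.indicator (fun _ => (1 / 2 : ℝ≥0∞)) F = 1 := by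
      intro F
      unfold gw
      by_cases hF : Good ε s l k F
      · rw [if_pos hF, Set.indicator_of_mem (show F ∈ {F | Good ε s l k F} from hF), ENNReal.add_halves]
      · rw [if_neg hF, Set.indicator_of_notMem (show F ∉ {F | Good ε s l k F} from hF), add_zero]
    simp only [h5]
    simp
  rw [lintegral_indicator_const hGm] at h4
  have h6 : ENNReal.ofReal (Real.exp (-(1 + 4 * ε)) / 2) ≤ 1 / 2 * P {F | Good ε s l k F} := by
    have h7 : ENNReal.ofReal (Real.exp (-(1 + 4 * ε)) / 2) =
        1 / 2 * ENNReal.ofReal (Real.exp (-(1 + 4 * ε))) := by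
      rw [ENNReal.ofReal_div_of_pos two_pos, div_eq_mul_inv, mul_comm, one_div]
      norm_num
    rw [h7]
    gcongr
  rw [ENNReal.ofReal_sub _ (by positivity), ENNReal.ofReal_one]
  refine ENNReal.le_sub_of_add_le_right ENNReal.ofReal_ne_top ?_
  rw [← h4]
  gcongr

/-- the mean of the product of the weights -/
theorem prod_mean {ε s l : ℝ} (hε : 0 < ε) (hl : l = 1 + 4 * ε) (h1 : S_PO1) (h3 : S_PO3)
    (hMB : S_MB) (hIND : S_IND) (N : ℕ) : ∀ B : Set (V 1), MeasurableSet B → volume B ≠ ⊤ →
      Iv s (s + N * l) ⊆ B →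
    ∫⁻ F, ∏ k ∈ Finset.range N, gw ε s l k F ∂(poi (mB B)) ≤
      ENNReal.ofReal (1 - Real.exp (-(1 + 4 * ε)) / 2) ^ N := by
  have hl0 : 0 < l := by rw [hl]; positivity
  induction N with
  | zero =>
    intro B hBm hBv _
    obtain ⟨hfin, -⟩ := (hMB 1 one_pos).2.2.2 B hBm hBv
    simp [poi_univ h1]
  | succ N ih =>
    intro B hBm hBv hsub
    have hU : Iv s (s + N * l) ⊆ B := by
      refine Set.Subset.trans ?_ hsub
      intro x hx
      refine ⟨hx.1, hx.2.trans ?_⟩
      push_cast
      linarith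
    have hJ : Jb s l N ⊆ B := by
      refine Set.Subset.trans ?_ hsub
      intro x hx
      refine ⟨lt_of_le_of_lt ?_ hx.1, hx.2⟩
      have : (0 : ℝ) ≤ N * l := by positivity
      linarith
    have hdis : Disjoint (Iv s (s + N * l)) (Jb s l N) := by
      rw [Set.disjoint_left]
      intro x hx hy
      exact absurd hx.2 (not_le.2 hy.1)
    have hm : Measurable fun F => ∏ k ∈ Finset.range N, gw ε s l k F :=
      Finset.measurable_prod _ fun k _ => meas_gw h1 h3 ε s l k
    have h4 := (hIND 1 B (Iv s (s + N * l)) (Jb s l N) ∅ one_pos hBm hBv (measurableSet_Iv _ _)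
      (measurableSet_Jb _ _ _) MeasurableSet.empty hU hJ (Set.empty_subset _) hdis
      (Set.disjoint_empty _) (Set.disjoint_empty _) (fun F => ∏ k ∈ Finset.range N, gw ε s l k F)
      (gw ε s l N) (fun _ => 1) hm (meas_gw h1 h3 ε s l N) measurable_const).2.2
    have h5 : ∀ F : Finset (X 1), (∏ k ∈ Finset.range N, gw ε s l k (res (Iv s (s + N * l)) F)) *
        gw ε s l N (res (Jb s l N) F) * 1 = ∏ k ∈ Finset.range (N + 1), gw ε s l k F := by
      intro F
      rw [mul_one, Finset.prod_range_succ, gw_res hε hl N (le_refl _)]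
      congr 1
      refine Finset.prod_congr rfl fun k hk => gw_res hε hl k ?_ F
      intro x hx
      have hkN : k + 1 ≤ N := Finset.mem_range.1 hk
      refine ⟨lt_of_le_of_lt ?_ hx.1, hx.2.trans ?_⟩
      · have : (0 : ℝ) ≤ k * l := by positivity
        linarith
      · have : ((k + 1 : ℕ) : ℝ) * l ≤ N * l := by gcongr
        linarith
    simp only [h5] at h4
    rw [h4, pow_succ]
    haveI : IsFiniteMeasure (mB (∅ : Set (V 1))) :=
      ((hMB 1 one_pos).2.2.2 ∅ MeasurableSet.empty (by simp)).1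
    have h6 : ∫⁻ _ : Finset (X 1), (1 : ℝ≥0∞) ∂(poi (mB (∅ : Set (V 1)))) = 1 := by
      rw [lintegral_one, poi_univ h1]
    rw [h6, mul_one]
    exact mul_le_mul' (ih _ (measurableSet_Iv _ _) (vol_Iv_ne _ _) (le_refl _))
      (gw_mean hε hl h1 h3 hMB N)

end Pool.Agent.Run7.h863.Met
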