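import Mathlib

/-!
# Annihilating meteors (helper146), piece D1B: Rademacher sums
-/

set_option autoImplicit false

namespace Pool.Agent.Run7.h863.Met

/-- sign of a bit -/
def sg (b : Bool) : ℝ := if b then -1 else 1

theorem sg_sq (b : Bool) : sg b ^ 2 = 1 := by cases b <;> simp [sg]

theorem sg_not (b : Bool) : sg (!b) = - sg b := by cases b <;> simp [sg]

variable {ι : Type*} [Fintype ι] [DecidableEq ι]

/-- flip one bit -/
def flipE (i : ι) : (ι → Bool) ≃ (ι → Bool) where
  toFun σ := Function.update σ i (!σ i)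
  invFun σ := Function.update σ i (!σ i)
  left_inv σ := by
    ext k
    by_cases h : k = i
    · subst h; simp
    · simp [h]
  right_inv σ := by
    ext k
    by_cases h : k = i
    · subst h; simp
    · simp [h]

theorem flipE_same (i : ι) (σ : ι → Bool) : flipE i σ i = !σ i := by
  simp [flipE]

theorem flipE_ne {i k : ι} (h : k ≠ i) (σ : ι → Bool) : flipE i σ k = σ k := by
  simp [flipE, h]

/-- all signs changed -/
def negE : (ι → Bool) ≃ (ι → Bool) where
  toFun σ := fun k => !σ k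
  invFun σ := fun k => !σ k
  left_inv σ := by ext k; simp
  right_inv σ := by ext k; simp

/-- the Rademacher sum over `I` -/
noncomputable def RS (a : ι → ℝ) (I : Finset ι) (σ : ι → Bool) : ℝ := ∑ k ∈ I, sg (σ k) * a k

theorem RS_flip (a : ι → ℝ) {I : Finset ι} {i : ι} (hi : i ∉ I) (σ : ι → Bool) :
    RS a I (flipE i σ) = RS a I σ := by
  unfold RS
  refine Finset.sum_congr rfl fun k hk => ?_
  have h : k ≠ i := by
    rintro rfl
    exact hi hk
  rw [flipE_ne h]

theorem sum_odd (a : ι → ℝ) {I : Finset ι} {i : ι} (hi : i ∉ I) (j : ℕ) :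
    ∑ σ : ι → Bool, sg (σ i) * RS a I σ ^ j = 0 := by
  have h := Equiv.sum_comp (flipE i) (fun σ : ι → Bool => sg (σ i) * RS a I σ ^ j)
  simp only [flipE_same, sg_not, RS_flip a hi] at h
  simp only [neg_mul, Finset.sum_neg_distrib] at h
  linarith

theorem RS_insert (a : ι → ℝ) {I : Finset ι} {i : ι} (hi : i ∉ I) (σ : ι → Bool) :
    RS a (insert i I) σ = sg (σ i) * a i + RS a I σ := by
  unfold RS
  rw [Finset.sum_insert hi]

theorem M2 (a : ι → ℝ) (I : Finset ι) :
    ∑ σ : ι → Bool, RS a I σ ^ 2 = 2 ^ Fintype.card ι * ∑ k ∈ I, a k ^ 2 := by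
  induction I using Finset.induction_on with
  | empty => simp [RS]
  | insert i I hi ih =>
    have h1 : ∀ σ : ι → Bool, RS a (insert i I) σ ^ 2 =
        a i ^ 2 + 2 * a i * (sg (σ i) * RS a I σ ^ 1) + RS a I σ ^ 2 := by
      intro σ
      rw [RS_insert a hi]
      have h2 := sg_sq (σ i)
      linear_combination (a i ^ 2) * h2
    simp only [h1]
    rw [Finset.sum_add_distrib, Finset.sum_add_distrib, ← Finset.mul_sum, sum_odd a hi 1, ih,
      Finset.sum_insert hi]
    simp
    ring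

theorem M4 (a : ι → ℝ) (I : Finset ι) :
    ∑ σ : ι → Bool, RS a I σ ^ 4 ≤ 2 ^ Fintype.card ι * (3 * (∑ k ∈ I, a k ^ 2) ^ 2) := by
  induction I using Finset.induction_on with
  | empty => simp [RS]
  | insert i I hi ih =>
    have h1 : ∀ σ : ι → Bool, RS a (insert i I) σ ^ 4 =
        a i ^ 4 + 4 * a i ^ 3 * (sg (σ i) * RS a I σ ^ 1) + 6 * a i ^ 2 * RS a I σ ^ 2 +
          4 * a i * (sg (σ i) * RS a I σ ^ 3) + RS a I σ ^ 4 := by
      intro σ
      rw [RS_insert a hi]
      have h2 := sg_sq (σ i)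
      have h3 : sg (σ i) ^ 3 = sg (σ i) := by
        rw [pow_succ, h2, one_mul]
      have h4 : sg (σ i) ^ 4 = 1 := by
        rw [show sg (σ i) ^ 4 = (sg (σ i) ^ 2) ^ 2 by ring, h2, one_pow]
      linear_combination (a i ^ 4) * h4 + 4 * a i ^ 3 * RS a I σ * h3 +
        6 * a i ^ 2 * RS a I σ ^ 2 * h2
    simp only [h1]
    rw [Finset.sum_add_distrib, Finset.sum_add_distrib, Finset.sum_add_distrib,
      Finset.sum_add_distrib, ← Finset.mul_sum, ← Finset.mul_sum, ← Finset.mul_sum,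
      sum_odd a hi 1, sum_odd a hi 3, M2, Finset.sum_insert hi]
    have h5 : ∑ σ : ι → Bool, a i ^ 4 = 2 ^ Fintype.card ι * a i ^ 4 := by
      simp
    rw [h5]
    have h6 : (0 : ℝ) ≤ 2 ^ Fintype.card ι := by positivity
    have h7 : (0 : ℝ) ≤ 2 ^ Fintype.card ι * a i ^ 4 := by positivity
    nlinarith [ih, h7]

/-- anticoncentration of Rademacher sums -/
theorem rad (a : ι → ℝ) (t : ℝ) (hA : 4 * t ^ 2 ≤ ∑ k, a k ^ 2)
    (hA0 : 0 < ∑ k, a k ^ 2) :
    (3 / 32 : ℝ) * 2 ^ Fintype.card ι ≤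
      ((Finset.univ.filter fun σ : ι → Bool => t ≤ ∑ k, sg (σ k) * a k).card : ℝ) := by
  set A : ℝ := ∑ k, a k ^ 2 with hAd
  set n : ℝ := 2 ^ Fintype.card ι with hn
  have hn0 : 0 < n := by rw [hn]; positivity
  have hm2 := M2 a Finset.univ
  have hm4 := M4 a Finset.univ
  rw [← hAd, ← hn] at hm2 hm4
  set T := Finset.univ.filter fun σ : ι → Bool => A / 4 ≤ RS a Finset.univ σ ^ 2 with hT
  have h1 : (∑ σ ∈ T, RS a Finset.univ σ ^ 2) ^ 2 ≤
      T.card * ∑ σ ∈ T, (RS a Finset.univ σ ^ 2) ^ 2 := sq_sum_le_card_mul_sum_sq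
  have h2 : ∑ σ ∈ T, (RS a Finset.univ σ ^ 2) ^ 2 ≤ n * (3 * A ^ 2) := by
    refine le_trans ?_ hm4
    refine (Finset.sum_le_sum_of_subset_of_nonneg (Finset.subset_univ T)
      fun _ _ _ => by positivity).trans_eq ?_
    exact Finset.sum_congr rfl fun σ _ => by ring
  have h3 : 3 / 4 * (n * A) ≤ ∑ σ ∈ T, RS a Finset.univ σ ^ 2 := by
    have h4 := Finset.sum_filter_add_sum_filter_not (Finset.univ : Finset (ι → Bool))
      (fun σ => A / 4 ≤ RS a Finset.univ σ ^ 2) (fun σ => RS a Finset.univ σ ^ 2)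
    rw [hm2, ← hT] at h4
    have h5 : ∑ σ ∈ Finset.univ.filter (fun σ : ι → Bool => ¬ A / 4 ≤ RS a Finset.univ σ ^ 2),
        RS a Finset.univ σ ^ 2 ≤ n * (A / 4) := by
      have h6 : ∀ σ ∈ Finset.univ.filter
          (fun σ : ι → Bool => ¬ A / 4 ≤ RS a Finset.univ σ ^ 2),
          RS a Finset.univ σ ^ 2 ≤ A / 4 := fun σ hσ => (not_le.1 (Finset.mem_filter.1 hσ).2).le
      refine (Finset.sum_le_card_nsmul _ _ _ h6).trans ?_
      rw [nsmul_eq_mul]
      refine mul_le_mul_of_nonneg_right ?_ (by positivity)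
      have h7 : (Finset.univ.filter
          (fun σ : ι → Bool => ¬ A / 4 ≤ RS a Finset.univ σ ^ 2)).card ≤
          Fintype.card (ι → Bool) := Finset.card_le_univ _
      rw [Fintype.card_fun, Fintype.card_bool] at h7
      rw [hn]
      exact_mod_cast h7
    linarith
  have h8 : (3 / 16 : ℝ) * n ≤ T.card := by
    have h9 : (3 / 4 * (n * A)) ^ 2 ≤ (∑ σ ∈ T, RS a Finset.univ σ ^ 2) ^ 2 :=
      pow_le_pow_left₀ (by positivity) h3 2
    have h10 : (T.card : ℝ) * ∑ σ ∈ T, (RS a Finset.univ σ ^ 2) ^ 2 ≤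
        T.card * (n * (3 * A ^ 2)) := mul_le_mul_of_nonneg_left h2 (by positivity)
    have h11 : (3 / 4 * (n * A)) ^ 2 ≤ T.card * (n * (3 * A ^ 2)) := h9.trans (h1.trans h10)
    have h12 : 0 < n * (3 * A ^ 2) := by positivity
    by_contra hcon
    rw [not_le] at hcon
    have h13 : (T.card : ℝ) * (n * (3 * A ^ 2)) < 3 / 16 * n * (n * (3 * A ^ 2)) :=
      mul_lt_mul_of_pos_right hcon h12
    nlinarith
  set P := Finset.univ.filter fun σ : ι → Bool => t ≤ ∑ k, sg (σ k) * a k with hP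
  set N := Finset.univ.filter fun σ : ι → Bool => t ≤ -∑ k, sg (σ k) * a k with hN
  have h14 : T ⊆ P ∪ N := by
    intro σ hσ
    have h15 : A / 4 ≤ RS a Finset.univ σ ^ 2 := (Finset.mem_filter.1 hσ).2
    have h16 : t ^ 2 ≤ RS a Finset.univ σ ^ 2 := by linarith
    have h17 : t ≤ |RS a Finset.univ σ| := by
      rw [← Real.sqrt_sq_eq_abs]
      exact Real.le_sqrt_of_sq_le h16
    rw [Finset.mem_union]
    rcases le_abs.1 h17 with h | h
    · exact Or.inl (Finset.mem_filter.2 ⟨Finset.mem_univ _, h⟩)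
    · exact Or.inr (Finset.mem_filter.2 ⟨Finset.mem_univ _, h⟩)
  have h18 : N.card = P.card := by
    refine Finset.card_bij (fun σ _ => negE σ) ?_ ?_ ?_
    · intro σ hσ
      have h19 := (Finset.mem_filter.1 hσ).2
      refine Finset.mem_filter.2 ⟨Finset.mem_univ _, ?_⟩
      have h20 : ∑ k, sg (negE σ k) * a k = -∑ k, sg (σ k) * a k := by
        rw [← Finset.sum_neg_distrib]
        refine Finset.sum_congr rfl fun k _ => ?_
        change sg (!σ k) * a k = _
        rw [sg_not]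
        ring
      rw [h20]
      exact h19
    · intro σ _ τ _ h
      exact negE.injective h
    · intro σ hσ
      have h19 := (Finset.mem_filter.1 hσ).2
      refine ⟨negE σ, Finset.mem_filter.2 ⟨Finset.mem_univ _, ?_⟩, ?_⟩
      · have h20 : ∑ k, sg (negE σ k) * a k = -∑ k, sg (σ k) * a k := by
          rw [← Finset.sum_neg_distrib]
          refine Finset.sum_congr rfl fun k _ => ?_
          change sg (!σ k) * a k = _
          rw [sg_not]
          ring
        rw [h20, neg_neg]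
        exact h19
      · ext k
        simp [negE]
  have h21 : (T.card : ℝ) ≤ P.card + N.card := by
    have := (Finset.card_le_card h14).trans (Finset.card_union_le P N)
    exact_mod_cast this
  rw [h18] at h21
  linarith

end Pool.Agent.Run7.h863.Met
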