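import Pool.Agent.Run7.h146.Met.I1
import Pool.Agent.Run7.h863.Met.Rad

/-!
# Annihilating meteors (helper146), piece D1B: the deterministic part
-/

set_option autoImplicit false

open MeasureTheory Filter Topology ENNReal

namespace Pool.Agent.Run7.h863.Met

open Run7.h146.Met

theorem norm1 (u : V 1) : ‖u‖ = |u 0| := by
  rw [EuclideanSpace.norm_eq, Fin.sum_univ_one, Real.norm_eq_abs, sq_abs, Real.sqrt_sq_eq_abs]

/-- an interval -/
def Iv (a b : ℝ) : Set (V 1) := {x | a < x 0 ∧ x 0 ≤ b}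

/-- isolation -/
def Iso (ε : ℝ) (F : Finset (X 1)) (z : X 1) : Prop := ∀ y ∈ F, y ≠ z → 2 * ε < ‖z.1 - y.1‖

theorem dt_pos_iff {ε : ℝ} (hε : 0 < ε) (hCT : S_CT) (hDYN : S_DYN) (F : Finset (X 1)) {z : X 1}
    (hz : z ∈ F) : 0 < dt ε F z ↔ Iso ε F z := by
  classical
  obtain ⟨-, -, -, -, h0, -⟩ := hCT 1 ε hε
  have hD := (hDYN 1 ε F).1 z hz
  constructor
  · intro h y hy hyz
    by_contra hcon
    rw [not_lt] at hcon
    have h1 : ct ε z y = 0 := (h0 z y).2 hcon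
    have h2 : dt ε F z ≤ ct ε z y := by
      rw [hD]
      refine iInf₂_le y ⟨hy, hyz, ?_⟩
      rw [h1]
      exact bot_le
    rw [h1] at h2
    exact absurd h (not_lt.2 h2)
  · intro h
    have h2 : (⨅ (y : X 1) (_ : y ∈ F ∧ y ≠ z ∧ ct ε z y ≤ dt ε F y), ct ε z y) =
        (F.filter fun y => y ≠ z ∧ ct ε z y ≤ dt ε F y).inf (fun y => ct ε z y) := by
      rw [Finset.inf_eq_iInf]
      refine iInf_congr fun x => ?_
      simp only [Finset.mem_filter]
    rw [hD, h2, Finset.lt_inf_iff ENNReal.zero_lt_top]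
    intro y hy
    obtain ⟨hy1, hy2, -⟩ := Finset.mem_filter.1 hy
    have h3 := h y hy1 hy2
    rw [pos_iff_ne_zero]
    intro h4
    exact absurd ((h0 z y).1 h4) (not_le.2 h3)

open Classical in
/-- the left movers which are isolated and start in `C` -/
noncomputable def lf (ε : ℝ) (F : Finset (X 1)) (C : Set (V 1)) : Finset (X 1) :=
  F.filter fun z => 0 < dt ε F z ∧ z.1 ∈ C ∧ z.2 0 < 0

open Classical in
/-- the right movers which are isolated and start in `C` -/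
noncomputable def rt (ε : ℝ) (F : Finset (X 1)) (C : Set (V 1)) : Finset (X 1) :=
  F.filter fun z => 0 < dt ε F z ∧ z.1 ∈ C ∧ 0 < z.2 0

/-- left minus right -/
noncomputable def df (ε : ℝ) (F : Finset (X 1)) (C : Set (V 1)) : ℝ :=
  ((lf ε F C).card : ℝ) - ((rt ε F C).card : ℝ)

theorem lf_add (ε : ℝ) (F : Finset (X 1)) {a b c : ℝ} (hab : a ≤ b) (hbc : b ≤ c) :
    (lf ε F (Iv a c)).card = (lf ε F (Iv a b)).card + (lf ε F (Iv b c)).card := by
  classical
  rw [← Finset.card_union_of_disjoint]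
  · congr 1
    ext z
    simp only [lf, Iv, Finset.mem_filter, Finset.mem_union, Set.mem_ofPred_eq]
    constructor
    · rintro ⟨h1, h2, ⟨h3, h4⟩, h5⟩
      rcases le_or_gt (z.1 0) b with h | h
      · exact Or.inl ⟨h1, h2, ⟨h3, h⟩, h5⟩
      · exact Or.inr ⟨h1, h2, ⟨h, h4⟩, h5⟩
    · rintro (⟨h1, h2, ⟨h3, h4⟩, h5⟩ | ⟨h1, h2, ⟨h3, h4⟩, h5⟩)
      · exact ⟨h1, h2, ⟨h3, h4.trans hbc⟩, h5⟩
      · exact ⟨h1, h2, ⟨lt_of_le_of_lt hab h3, h4⟩, h5⟩
  · rw [Finset.disjoint_left]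
    intro z h1 h2
    simp only [lf, Iv, Finset.mem_filter, Set.mem_ofPred_eq] at h1 h2
    exact absurd h1.2.2.1.2 (not_le.2 h2.2.2.1.1)

theorem rt_add (ε : ℝ) (F : Finset (X 1)) {a b c : ℝ} (hab : a ≤ b) (hbc : b ≤ c) :
    (rt ε F (Iv a c)).card = (rt ε F (Iv a b)).card + (rt ε F (Iv b c)).card := by
  classical
  rw [← Finset.card_union_of_disjoint]
  · congr 1
    ext z
    simp only [rt, Iv, Finset.mem_filter, Finset.mem_union, Set.mem_ofPred_eq]
    constructor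
    · rintro ⟨h1, h2, ⟨h3, h4⟩, h5⟩
      rcases le_or_gt (z.1 0) b with h | h
      · exact Or.inl ⟨h1, h2, ⟨h3, h⟩, h5⟩
      · exact Or.inr ⟨h1, h2, ⟨h, h4⟩, h5⟩
    · rintro (⟨h1, h2, ⟨h3, h4⟩, h5⟩ | ⟨h1, h2, ⟨h3, h4⟩, h5⟩)
      · exact ⟨h1, h2, ⟨h3, h4.trans hbc⟩, h5⟩
      · exact ⟨h1, h2, ⟨lt_of_le_of_lt hab h3, h4⟩, h5⟩
  · rw [Finset.disjoint_left]
    intro z h1 h2
    simp only [rt, Iv, Finset.mem_filter, Set.mem_ofPred_eq] at h1 h2
    exact absurd h1.2.2.1.2 (not_le.2 h2.2.2.1.1)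

theorem df_add (ε : ℝ) (F : Finset (X 1)) {a b c : ℝ} (hab : a ≤ b) (hbc : b ≤ c) :
    df ε F (Iv a c) = df ε F (Iv a b) + df ε F (Iv b c) := by
  unfold df
  rw [lf_add ε F hab hbc, rt_add ε F hab hbc]
  push_cast
  ring

/-- the blocks -/
def Jb (s l : ℝ) (k : ℕ) : Set (V 1) := Iv (s + k * l) (s + (k + 1 : ℕ) * l)

theorem df_sum (ε : ℝ) (F : Finset (X 1)) (s : ℝ) {l : ℝ} (hl : 0 ≤ l) (N : ℕ) :
    df ε F (Iv s (s + N * l)) = ∑ k ∈ Finset.range N, df ε F (Jb s l k) := by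
  induction N with
  | zero =>
    rw [Finset.range_zero, Finset.sum_empty]
    have h : Iv s (s + ((0 : ℕ) : ℝ) * l) = ∅ := by
      ext x
      simp only [Iv, Set.mem_ofPred_eq, Set.mem_empty_iff_false, iff_false, not_and, not_le]
      intro h
      simpa using h
    rw [h]
    simp [df, lf, rt]
  | succ N ih =>
    rw [Finset.sum_range_succ, ← ih, Jb]
    refine df_add ε F ?_ ?_
    · have : (0 : ℝ) ≤ N * l := by positivity
      linarith
    · push_cast
      linarith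

/-- the flip of the velocities over a set of positions -/
noncomputable def fl (T : Set (V 1)) [DecidablePred (· ∈ T)] (z : X 1) : X 1 :=
  if z.1 ∈ T then (z.1, -z.2) else z

theorem fl_fst (T : Set (V 1)) [DecidablePred (· ∈ T)] (z : X 1) : (fl T z).1 = z.1 := by
  unfold fl
  split_ifs <;> rfl

theorem fl_fl (T : Set (V 1)) [DecidablePred (· ∈ T)] (z : X 1) : fl T (fl T z) = z := by
  by_cases h : z.1 ∈ T
  · have h1 : fl T z = (z.1, -z.2) := if_pos h
    have h2 : fl T (z.1, -z.2) = (z.1, - -z.2) := if_pos h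
    rw [h1, h2, neg_neg]
  · have h1 : fl T z = z := if_neg h
    rw [h1, h1]

theorem fl_inj (T : Set (V 1)) [DecidablePred (· ∈ T)] : Function.Injective (fl T) :=
  fun z y h => by rw [← fl_fl T z, h, fl_fl]

open Classical in
theorem iso_fl (ε : ℝ) (T : Set (V 1)) [DecidablePred (· ∈ T)] (F : Finset (X 1)) (z : X 1) :
    Iso ε (F.image (fl T)) (fl T z) ↔ Iso ε F z := by
  constructor
  · intro h y hy hyz
    have h1 := h (fl T y) (Finset.mem_image_of_mem _ hy) (fun h2 => hyz (fl_inj T h2))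
    rwa [fl_fst, fl_fst] at h1
  · intro h y hy hyz
    obtain ⟨x, hx, rfl⟩ := Finset.mem_image.1 hy
    rw [fl_fst, fl_fst]
    exact h x hx (fun h2 => hyz (by rw [h2]))

open Classical in
theorem df_fl_in {ε : ℝ} (hε : 0 < ε) (hCT : S_CT) (hDYN : S_DYN) (T C : Set (V 1))
    (hCTs : C ⊆ T) (F : Finset (X 1)) : df ε (F.image (fl T)) C = - df ε F C := by
  have h1 : lf ε (F.image (fl T)) C = (rt ε F C).image (fl T) := by
    ext z
    simp only [lf, rt, Finset.mem_filter, Finset.mem_image]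
    constructor
    · rintro ⟨⟨y, hy, rfl⟩, h2, h3, h4⟩
      have h5 := (dt_pos_iff hε hCT hDYN _ (Finset.mem_image_of_mem _ hy)).1 h2
      rw [iso_fl] at h5
      rw [fl_fst] at h3
      have h6 : fl T y = (y.1, -y.2) := if_pos (hCTs h3)
      rw [h6] at h4
      refine ⟨y, ⟨hy, (dt_pos_iff hε hCT hDYN F hy).2 h5, h3, ?_⟩, rfl⟩
      have h7 : ((y.1, -y.2) : X 1).2 0 = - y.2 0 := rfl
      rw [h7] at h4
      linarith
    · rintro ⟨y, ⟨hy, h2, h3, h4⟩, rfl⟩
      have h5 := (dt_pos_iff hε hCT hDYN F hy).1 h2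
      have h6 : fl T y = (y.1, -y.2) := if_pos (hCTs h3)
      refine ⟨⟨y, hy, rfl⟩, (dt_pos_iff hε hCT hDYN _ (Finset.mem_image_of_mem _ hy)).2 ?_, ?_, ?_⟩
      · rw [iso_fl]; exact h5
      · rw [fl_fst]; exact h3
      · rw [h6]
        have h7 : ((y.1, -y.2) : X 1).2 0 = - y.2 0 := rfl
        rw [h7]
        linarith
  have h2 : rt ε (F.image (fl T)) C = (lf ε F C).image (fl T) := by
    ext z
    simp only [lf, rt, Finset.mem_filter, Finset.mem_image]
    constructor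
    · rintro ⟨⟨y, hy, rfl⟩, h2, h3, h4⟩
      have h5 := (dt_pos_iff hε hCT hDYN _ (Finset.mem_image_of_mem _ hy)).1 h2
      rw [iso_fl] at h5
      rw [fl_fst] at h3
      have h6 : fl T y = (y.1, -y.2) := if_pos (hCTs h3)
      rw [h6] at h4
      refine ⟨y, ⟨hy, (dt_pos_iff hε hCT hDYN F hy).2 h5, h3, ?_⟩, rfl⟩
      have h7 : ((y.1, -y.2) : X 1).2 0 = - y.2 0 := rfl
      rw [h7] at h4
      linarith
    · rintro ⟨y, ⟨hy, h2, h3, h4⟩, rfl⟩
      have h5 := (dt_pos_iff hε hCT hDYN F hy).1 h2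
      have h6 : fl T y = (y.1, -y.2) := if_pos (hCTs h3)
      refine ⟨⟨y, hy, rfl⟩, (dt_pos_iff hε hCT hDYN _ (Finset.mem_image_of_mem _ hy)).2 ?_, ?_, ?_⟩
      · rw [iso_fl]; exact h5
      · rw [fl_fst]; exact h3
      · rw [h6]
        have h7 : ((y.1, -y.2) : X 1).2 0 = - y.2 0 := rfl
        rw [h7]
        linarith
  unfold df
  rw [h1, h2, Finset.card_image_of_injective _ (fl_inj T),
    Finset.card_image_of_injective _ (fl_inj T)]
  ring

open Classical in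
theorem df_fl_out {ε : ℝ} (hε : 0 < ε) (hCT : S_CT) (hDYN : S_DYN) (T C : Set (V 1))
    (hCTs : Disjoint C T) (F : Finset (X 1)) : df ε (F.image (fl T)) C = df ε F C := by
  have h1 : lf ε (F.image (fl T)) C = (lf ε F C).image (fl T) := by
    ext z
    simp only [lf, Finset.mem_filter, Finset.mem_image]
    constructor
    · rintro ⟨⟨y, hy, rfl⟩, h2, h3, h4⟩
      have h5 := (dt_pos_iff hε hCT hDYN _ (Finset.mem_image_of_mem _ hy)).1 h2
      rw [iso_fl] at h5
      rw [fl_fst] at h3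
      have h6 : fl T y = y := if_neg (Set.disjoint_left.1 hCTs h3)
      rw [h6] at h4
      exact ⟨y, ⟨hy, (dt_pos_iff hε hCT hDYN F hy).2 h5, h3, h4⟩, rfl⟩
    · rintro ⟨y, ⟨hy, h2, h3, h4⟩, rfl⟩
      have h5 := (dt_pos_iff hε hCT hDYN F hy).1 h2
      have h6 : fl T y = y := if_neg (Set.disjoint_left.1 hCTs h3)
      refine ⟨⟨y, hy, rfl⟩, (dt_pos_iff hε hCT hDYN _ (Finset.mem_image_of_mem _ hy)).2 ?_, ?_, ?_⟩
      · rw [iso_fl]; exact h5
      · rw [fl_fst]; exact h3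
      · rw [h6]; exact h4
  have h2 : rt ε (F.image (fl T)) C = (rt ε F C).image (fl T) := by
    ext z
    simp only [rt, Finset.mem_filter, Finset.mem_image]
    constructor
    · rintro ⟨⟨y, hy, rfl⟩, h2, h3, h4⟩
      have h5 := (dt_pos_iff hε hCT hDYN _ (Finset.mem_image_of_mem _ hy)).1 h2
      rw [iso_fl] at h5
      rw [fl_fst] at h3
      have h6 : fl T y = y := if_neg (Set.disjoint_left.1 hCTs h3)
      rw [h6] at h4
      exact ⟨y, ⟨hy, (dt_pos_iff hε hCT hDYN F hy).2 h5, h3, h4⟩, rfl⟩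
    · rintro ⟨y, ⟨hy, h2, h3, h4⟩, rfl⟩
      have h5 := (dt_pos_iff hε hCT hDYN F hy).1 h2
      have h6 : fl T y = y := if_neg (Set.disjoint_left.1 hCTs h3)
      refine ⟨⟨y, hy, rfl⟩, (dt_pos_iff hε hCT hDYN _ (Finset.mem_image_of_mem _ hy)).2 ?_, ?_, ?_⟩
      · rw [iso_fl]; exact h5
      · rw [fl_fst]; exact h3
      · rw [h6]; exact h4
  unfold df
  rw [h1, h2, Finset.card_image_of_injective _ (fl_inj T),
    Finset.card_image_of_injective _ (fl_inj T)]

theorem Jb_disj {s l : ℝ} (hl : 0 < l) {j k : ℕ} (h : j ≠ k) : Disjoint (Jb s l j) (Jb s l k) := by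
  rw [Set.disjoint_left]
  intro x h1 h2
  simp only [Jb, Iv, Set.mem_ofPred_eq] at h1 h2
  obtain ⟨a1, a2⟩ := h1
  obtain ⟨b1, b2⟩ := h2
  push_cast at a2 b2
  have h3 : (j : ℝ) * l < (k + 1) * l := by linarith
  have h4 : (k : ℝ) * l < (j + 1) * l := by linarith
  have h5 : (j : ℝ) < k + 1 := lt_of_mul_lt_mul_right h3 hl.le
  have h6 : (k : ℝ) < j + 1 := lt_of_mul_lt_mul_right h4 hl.le
  have h7 : j < k + 1 := by exact_mod_cast h5
  have h8 : k < j + 1 := by exact_mod_cast h6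
  omega

/-- the set of positions in the flipped blocks -/
def Tb (s l : ℝ) {N : ℕ} (σ : Fin N → Bool) : Set (V 1) := {x | ∃ k : Fin N, σ k = true ∧ x ∈ Jb s l k}

open Classical in
theorem df_flip {ε : ℝ} (hε : 0 < ε) (hCT : S_CT) (hDYN : S_DYN) {s l : ℝ} (hl : 0 < l) {N : ℕ}
    (σ : Fin N → Bool) (F : Finset (X 1)) :
    df ε (F.image (fl (Tb s l σ))) (Iv s (s + N * l)) =
      ∑ k : Fin N, sg (σ k) * df ε F (Jb s l k) := by
  rw [df_sum ε _ s hl.le N, ← Fin.sum_univ_eq_sum_range (fun k => df ε _ (Jb s l k)) N]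
  refine Finset.sum_congr rfl fun k _ => ?_
  cases hσ : σ k with
  | true =>
    rw [df_fl_in hε hCT hDYN]
    · simp [sg]
    · intro x hx
      exact ⟨k, hσ, hx⟩
  | false =>
    rw [df_fl_out hε hCT hDYN]
    · simp [sg]
    · rw [Set.disjoint_left]
      rintro x hx ⟨j, hj, hxj⟩
      have h1 : (j : ℕ) ≠ k := by
        intro h
        have h2 : j = k := Fin.ext h
        rw [h2, hσ] at hj
        exact absurd hj (by decide)
      exact Set.disjoint_left.1 (Jb_disj hl h1) hxj hx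

/-- the middle of a block, with nonzero velocity -/
def Mb (ε s l : ℝ) (k : ℕ) : Set (X 1) :=
  {z | s + k * l + 2 * ε < z.1 0 ∧ z.1 0 ≤ s + k * l + 2 * ε + 1 ∧ z.2 0 ≠ 0}

open Classical in
/-- a good block: exactly one point, and it is in the middle -/
def Good (ε s l : ℝ) (k : ℕ) (F : Finset (X 1)) : Prop :=
  (F.filter fun z => z ∈ Mb ε s l k).card = 1 ∧ (F.filter fun z => z.1 ∈ Jb s l k).card = 1

open Classical in
theorem good_sq {ε : ℝ} (hε : 0 < ε) (hCT : S_CT) (hDYN : S_DYN) {s : ℝ} (k : ℕ)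
    (F : Finset (X 1)) (h : Good ε s (1 + 4 * ε) k F) :
    1 ≤ df ε F (Jb s (1 + 4 * ε) k) ^ 2 := by
  obtain ⟨h1, h2⟩ := h
  obtain ⟨z, hz⟩ := Finset.card_eq_one.1 h1
  obtain ⟨w, hw⟩ := Finset.card_eq_one.1 h2
  have hzm : z ∈ F.filter fun z => z ∈ Mb ε s (1 + 4 * ε) k := by rw [hz]; simp
  obtain ⟨hzF, hz1, hz2, hz3⟩ := Finset.mem_filter.1 hzm
  have hzJ : z.1 ∈ Jb s (1 + 4 * ε) k := by
    simp only [Jb, Iv, Set.mem_ofPred_eq]
    push_cast
    constructor <;> nlinarith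
  have hzw : z = w := by
    have : z ∈ F.filter fun z => z.1 ∈ Jb s (1 + 4 * ε) k := Finset.mem_filter.2 ⟨hzF, hzJ⟩
    rw [hw] at this
    simpa using this
  have huniq : ∀ y ∈ F, y.1 ∈ Jb s (1 + 4 * ε) k → y = z := by
    intro y hy hyJ
    have : y ∈ F.filter fun z => z.1 ∈ Jb s (1 + 4 * ε) k := Finset.mem_filter.2 ⟨hy, hyJ⟩
    rw [hw] at this
    rw [hzw]
    simpa using this
  have hiso : Iso ε F z := by
    intro y hy hyz
    by_contra hcon
    rw [not_lt, norm1] at hcon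
    have h3 : (z.1 - y.1) 0 = z.1 0 - y.1 0 := rfl
    rw [h3, abs_le] at hcon
    obtain ⟨h4, h5⟩ := hcon
    refine hyz (huniq y hy ?_)
    simp only [Jb, Iv, Set.mem_ofPred_eq]
    push_cast
    constructor <;> nlinarith
  have hdt := (dt_pos_iff hε hCT hDYN F hzF).2 hiso
  rcases lt_or_gt_of_ne hz3 with hneg | hpos
  · have h6 : lf ε F (Jb s (1 + 4 * ε) k) = {z} := by
      ext y
      simp only [lf, Finset.mem_filter, Finset.mem_singleton]
      constructor
      · rintro ⟨a, -, b, -⟩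
        exact huniq y a b
      · rintro rfl
        exact ⟨hzF, hdt, hzJ, hneg⟩
    have h7 : rt ε F (Jb s (1 + 4 * ε) k) = ∅ := by
      ext y
      simp only [rt, Finset.mem_filter, Finset.notMem_empty, iff_false]
      rintro ⟨a, -, b, c⟩
      rw [huniq y a b] at c
      linarith
    simp [df, h6, h7]
  · have h6 : rt ε F (Jb s (1 + 4 * ε) k) = {z} := by
      ext y
      simp only [rt, Finset.mem_filter, Finset.mem_singleton]
      constructor
      · rintro ⟨a, -, b, -⟩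
        exact huniq y a b
      · rintro rfl
        exact ⟨hzF, hdt, hzJ, hpos⟩
    have h7 : lf ε F (Jb s (1 + 4 * ε) k) = ∅ := by
      ext y
      simp only [lf, Finset.mem_filter, Finset.notMem_empty, iff_false]
      rintro ⟨a, -, b, c⟩
      rw [huniq y a b] at c
      linarith
    simp [df, h6, h7]

end Pool.Agent.Run7.h863.Met
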