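import Pool.Agent.Run7.h863.Met.Comb

/-!
# Annihilating meteors (helper146), piece D1B: measurability, flips
-/

set_option autoImplicit false

open MeasureTheory Filter Topology ENNReal

namespace Pool.Agent.Run7.h863.Met

open Run7.h146.Met

theorem meas_coord : Measurable (fun x : V 1 => x 0) :=
  ((continuous_apply 0).comp (PiLp.continuous_ofLp 2 _)).measurable

theorem measurableSet_Iv (a b : ℝ) : MeasurableSet (Iv a b) :=
  (measurableSet_lt measurable_const meas_coord).inter
    (measurableSet_le meas_coord measurable_const)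

theorem vol_Iv (a b : ℝ) : volume (Iv a b) = ENNReal.ofReal (b - a) := by
  have h : MeasurePreserving (fun x : V 1 => x 0) volume volume :=
    (volume_preserving_funUnique (Fin 1) ℝ).comp (PiLp.volume_preserving_ofLp (Fin 1))
  have h2 : Iv a b = (fun x : V 1 => x 0) ⁻¹' Set.Ioc a b := rfl
  rw [h2, h.measure_preimage measurableSet_Ioc.nullMeasurableSet, Real.volume_Ioc]

theorem vol_Iv_ne (a b : ℝ) : volume (Iv a b) ≠ ⊤ := by
  rw [vol_Iv]
  exact ENNReal.ofReal_ne_top

theorem measurable_fl (T : Set (V 1)) [DecidablePred (· ∈ T)] (hT : MeasurableSet T) :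
    Measurable (fl T) := by
  refine Measurable.ite (hT.preimage measurable_fst) ?_ measurable_id
  exact measurable_fst.prodMk measurable_snd.neg

/-- the flip as a measurable equivalence -/
noncomputable def flE (T : Set (V 1)) [DecidablePred (· ∈ T)] (hT : MeasurableSet T) :
    X 1 ≃ᵐ X 1 where
  toFun := fl T
  invFun := fl T
  left_inv := fl_fl T
  right_inv := fl_fl T
  measurable_toFun := measurable_fl T hT
  measurable_invFun := measurable_fl T hT

theorem map_fl (hMB : S_MB) {B : Set (V 1)} (T : Set (V 1)) [DecidablePred (· ∈ T)]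
    (hT : MeasurableSet T) : (mB B).map (flE T hT) = mB B := by
  obtain ⟨hp, -, hO, -⟩ := hMB 1 one_pos
  have h1 : MeasurePreserving (fun p : V 1 × V 1 => (id p.1, if p.1 ∈ T then -p.2 else p.2))
      ((volume.restrict B).prod (sig 1)) ((volume.restrict B).prod (sig 1)) := by
    refine MeasurePreserving.skew_product (g := fun x v => if x ∈ T then -v else v)
      (MeasurePreserving.id _) ?_ ?_
    · refine Measurable.ite (hT.preimage measurable_fst) measurable_snd.neg measurable_snd
    · refine Filter.Eventually.of_forall fun x => ?_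
      by_cases hx : x ∈ T
      · simp only [if_pos hx]
        have h2 := hO (LinearIsometryEquiv.neg ℝ)
        exact h2
      · simp only [if_neg hx]
        exact Measure.map_id
  have h3 : (⇑(flE T hT) : X 1 → X 1) =
      fun p : V 1 × V 1 => (id p.1, if p.1 ∈ T then -p.2 else p.2) := by
    funext p
    change fl T p = _
    unfold fl
    split_ifs with h
    · rfl
    · rfl
  have h4 := h1.map_eq
  rw [← h3] at h4
  exact h4

/-- a counting functional is measurable -/
theorem meas_sum (h1 : S_PO1) (h3 : S_PO3) (h : X 1 → Finset (X 1) → ℝ≥0∞) (hh : TM h) :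
    Measurable (fun F : Finset (X 1) => ∑ x ∈ F, h x F) := by
  have a1 : TM (fun (p : Unit × X 1) F => h p.2 F) := by
    intro n
    have h2 := hh n
    have h4 : Measurable fun p : (Unit × X 1) × (Fin n → X 1) => (p.1.2, p.2) :=
      (measurable_snd.comp measurable_fst).prodMk measurable_snd
    exact h2.comp h4
  have a2 := h3 1 Unit (fun p F => h p.2 F) a1
  haveI : IsFiniteMeasure (0 : Measure (X 1)) := inferInstance
  exact (h1 1 0).2.2.1 Unit _ a2 ()

open Classical in
theorem meas_cn (h1 : S_PO1) (h3 : S_PO3) {C : Set (X 1)} (hC : MeasurableSet C) :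
    Measurable (fun F : Finset (X 1) => ((F.filter fun z => z ∈ C).card : ℝ≥0∞)) := by
  have h := meas_sum h1 h3 (fun z _ => if z ∈ C then 1 else 0) (by
    intro n
    exact Measurable.ite (hC.preimage measurable_fst) measurable_const measurable_const)
  simpa only [Finset.sum_boole] using h

open Classical in
theorem meas_lf {ε : ℝ} (hε : 0 < ε) (h1 : S_PO1) (h3 : S_PO3) (hDM : S_DM) {C : Set (V 1)}
    (hC : MeasurableSet C) : Measurable (fun F : Finset (X 1) => ((lf ε F C).card : ℝ≥0∞)) := by
  have h := meas_sum h1 h3 (fun z F => if 0 < dt ε F z ∧ z.1 ∈ C ∧ z.2 0 < 0 then 1 else 0) (by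
    intro n
    have h5 := hDM 1 ε hε n
    refine Measurable.ite ?_ measurable_const measurable_const
    refine (measurableSet_lt measurable_const h5).inter ?_
    refine (hC.preimage (measurable_fst.comp measurable_fst)).inter ?_
    exact measurableSet_lt (meas_coord.comp (measurable_snd.comp measurable_fst))
      measurable_const)
  simpa only [Finset.sum_boole, lf] using h

open Classical in
theorem meas_rt {ε : ℝ} (hε : 0 < ε) (h1 : S_PO1) (h3 : S_PO3) (hDM : S_DM) {C : Set (V 1)}
    (hC : MeasurableSet C) : Measurable (fun F : Finset (X 1) => ((rt ε F C).card : ℝ≥0∞)) := by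
  have h := meas_sum h1 h3 (fun z F => if 0 < dt ε F z ∧ z.1 ∈ C ∧ 0 < z.2 0 then 1 else 0) (by
    intro n
    have h5 := hDM 1 ε hε n
    refine Measurable.ite ?_ measurable_const measurable_const
    refine (measurableSet_lt measurable_const h5).inter ?_
    refine (hC.preimage (measurable_fst.comp measurable_fst)).inter ?_
    exact measurableSet_lt measurable_const
      (meas_coord.comp (measurable_snd.comp measurable_fst)))
  simpa only [Finset.sum_boole, rt] using h

/-- the event: many more left movers than right movers -/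
def Ev (ε : ℝ) (C : Set (V 1)) (m : ℕ) : Set (Finset (X 1)) :=
  {F | (rt ε F C).card + m ≤ (lf ε F C).card}

theorem meas_Ev {ε : ℝ} (hε : 0 < ε) (h1 : S_PO1) (h3 : S_PO3) (hDM : S_DM) {C : Set (V 1)}
    (hC : MeasurableSet C) (m : ℕ) : MeasurableSet (Ev ε C m) := by
  have h : Ev ε C m = {F | ((rt ε F C).card : ℝ≥0∞) + (m : ℝ≥0∞) ≤ ((lf ε F C).card : ℝ≥0∞)} := by
    ext F
    simp only [Ev, Set.mem_ofPred_eq]
    exact_mod_cast Iff.rfl
  rw [h]
  exact measurableSet_le ((meas_rt hε h1 h3 hDM hC).add_const _) (meas_lf hε h1 h3 hDM hC)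

theorem measurableSet_Mb (ε s l : ℝ) (k : ℕ) : MeasurableSet (Mb ε s l k) := by
  have hc : Measurable fun z : X 1 => z.1 0 := meas_coord.comp measurable_fst
  have hd : Measurable fun z : X 1 => z.2 0 := meas_coord.comp measurable_snd
  exact (measurableSet_lt measurable_const hc).inter ((measurableSet_le hc measurable_const).inter
    (measurableSet_eq_fun hd measurable_const).compl)

theorem measurableSet_Jb (s l : ℝ) (k : ℕ) : MeasurableSet (Jb s l k) := measurableSet_Iv _ _

theorem meas_Good (h1 : S_PO1) (h3 : S_PO3) (ε s l : ℝ) (k : ℕ) :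
    MeasurableSet {F | Good ε s l k F} := by
  classical
  have a1 := meas_cn h1 h3 (measurableSet_Mb ε s l k)
  have a2 := meas_cn h1 h3 (C := {z : X 1 | z.1 ∈ Jb s l k})
    ((measurableSet_Jb s l k).preimage measurable_fst)
  have h : {F | Good ε s l k F} =
      {F : Finset (X 1) | ((F.filter fun z => z ∈ Mb ε s l k).card : ℝ≥0∞) = 1} ∩
      {F : Finset (X 1) | ((F.filter fun z => z ∈ {z : X 1 | z.1 ∈ Jb s l k}).card : ℝ≥0∞) = 1} := by
    ext F
    simp only [Good, Set.mem_ofPred_eq, Set.mem_inter_iff]
    constructor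
    · rintro ⟨b1, b2⟩
      constructor
      · exact_mod_cast b1
      · exact_mod_cast b2
    · rintro ⟨b1, b2⟩
      constructor
      · exact_mod_cast b1
      · exact_mod_cast b2
  rw [h]
  exact (a1 (measurableSet_singleton 1)).inter (a2 (measurableSet_singleton 1))

open Classical in
/-- the weight of a block -/
noncomputable def gw (ε s l : ℝ) (k : ℕ) (F : Finset (X 1)) : ℝ≥0∞ :=
  if Good ε s l k F then 1 / 2 else 1

theorem meas_gw (h1 : S_PO1) (h3 : S_PO3) (ε s l : ℝ) (k : ℕ) : Measurable (gw ε s l k) :=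
  Measurable.ite (meas_Good h1 h3 ε s l k) measurable_const measurable_const

theorem good_res {ε s l : ℝ} (hε : 0 < ε) (hl : l = 1 + 4 * ε) (k : ℕ) {B : Set (V 1)}
    (hB : Jb s l k ⊆ B) (F : Finset (X 1)) : Good ε s l k (res B F) ↔ Good ε s l k F := by
  classical
  have h1 : ((res B F).filter fun z => z ∈ Mb ε s l k) = F.filter fun z => z ∈ Mb ε s l k := by
    ext z
    simp only [res, Finset.mem_filter]
    constructor
    · rintro ⟨⟨a, -⟩, b⟩
      exact ⟨a, b⟩
    · rintro ⟨a, b⟩
      refine ⟨⟨a, hB ?_⟩, b⟩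
      obtain ⟨b1, b2, -⟩ := b
      simp only [Jb, Iv, Set.mem_ofPred_eq]
      push_cast
      constructor <;> nlinarith
  have h2 : ((res B F).filter fun z => z.1 ∈ Jb s l k) = F.filter fun z => z.1 ∈ Jb s l k := by
    ext z
    simp only [res, Finset.mem_filter]
    constructor
    · rintro ⟨⟨a, -⟩, b⟩
      exact ⟨a, b⟩
    · rintro ⟨a, b⟩
      exact ⟨⟨a, hB b⟩, b⟩
  unfold Good
  rw [← h1, ← h2]

theorem gw_res {ε s l : ℝ} (hε : 0 < ε) (hl : l = 1 + 4 * ε) (k : ℕ) {B : Set (V 1)}
    (hB : Jb s l k ⊆ B) (F : Finset (X 1)) : gw ε s l k (res B F) = gw ε s l k F := by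
  unfold gw
  by_cases h : Good ε s l k F
  · rw [if_pos h, if_pos ((good_res hε hl k hB F).2 h)]
  · rw [if_neg h, if_neg fun h2 => h ((good_res hε hl k hB F).1 h2)]

end Pool.Agent.Run7.h863.Met
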